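import Pool.Agent.MP_df844f_gt.RA.w.Cut

-- ======== part 0: formerly Pool.Agent.MP_df844f_gt.RA.Spec
section MrgPart0

/-! Statements for sections 2 to 5 of the proof. -/

set_option linter.unusedSectionVars false

noncomputable section

namespace Pool.Agent.MP_df844f_gt.RA

variable [Dat]

open PS

/-! ### Section 2: moves -/

def ClosS : Prop := ∀ (B : Type) [MulAction W B] (Y : PS B),
  ∃ (Y' : PS B) (φ : Hom Y Y'), Y'.State ∧ φ.Good ∧ φ.Ctl 0 ∧ φ.new = 0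

def WedgeS : Prop := ∀ (B : Type) [MulAction W B] (o : B) (Y : PS B) (J : Type) [Fintype J]
  (z : J → Y.Om) (w : J → W) (K : J → Finset W) (s0 : S),
  (∀ j, w j • o = Y.f (z j)) → (∀ j, Cvx (K j : Set W)) → (∀ j, w j ∈ K j) →
  ∀ h : ∀ j, g s0 * w j ∈ K j,
  ∃ (Y' : PS B) (φ : Hom Y Y') (ι : ∀ j, EHom (cvxPS (K j)) Y'),
    φ.Good ∧ φ.Ctl (∑ j, (K j).card) ∧ (∀ j k, Y'.f ((ι j).π k) = k.1 • o) ∧
    ∀ j, Y'.e s0 (φ.π (z j)) ((ι j).π ⟨g s0 * w j, h j⟩)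

def AttS : Prop := ∀ (B : Type) [MulAction W B] (Y : PS B) (J : Finset S) (y : S → Y.Om) (b : B),
  Y.Att J y b → ∃ (Y' : PS B) (φ : Hom Y Y'), φ.Good ∧ φ.Ctl 0 ∧ φ.new = 1

def HS : Prop := ∀ (B : Type) [MulAction W B] (o : B) (Y : PS B) (D : HData o Y),
  ∃ (Y' : PS B) (m : Move o Y Y') (ν : Y.Om → Y'.Om),
    (∀ x, D.Kept x → m.K x (ν x)) ∧
    Y'.vol ≤ {x | D.comp x = none}.ncard + ∑ j, (D.Q j).vol ∧
    Y'.area ≤ Y.nF {x | D.comp x = none} + nS * ∑ j, (D.Q j).vol ∧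
    ∀ (n k : Y.Node) (l : ℕ) (ch : Y.Path), Y.TW tt n k l ch → D.comp n.x ≠ none → D.Kept n.x →
      D.Kept k.x → (∀ lw ∈ ch, D.Int lw.1) →
      (∃ ch', Y'.TW tt ⟨ν n.x, n.w, n.p⟩ ⟨ν k.x, k.w, k.p⟩ (d n.p k.p) ch' ∧
        SameV m.pull ch ch') ∧
      (k.x = n.x → k.w = n.w → SameV m.pull ch [])

/-- Transport of walks with bounded shadows, at equal cost. -/
def BddT {B : Type} [MulAction W B] {o : B} {Y Y' : PS B} (m : Move o Y Y') (ν : Y.Om → Y'.Om) :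
    Prop :=
  ∀ (c : W) (R : ℕ) (n k : Y.Node) (l : ℕ) (ch : Y.Path), Y.TW (fun _ p => d c p ≤ R) n k l ch →
    ∃ ch', Y'.TW (fun _ p => d c p ≤ R + 6) ⟨ν n.x, n.w, n.p⟩ ⟨ν k.x, k.w, k.p⟩ l ch' ∧
      SameV m.pull ch ch'

def SubS : Prop := ∀ (B : Type) [MulAction W B] (o : B) (Y : PS B) (a0 : Y.A) (g1 g2 : W),
  Y.lab a0 = g2 * g1 → len (g2 * g1) = len g1 + len g2 →
  ∃ (Y' : PS B) (m : Move o Y Y') (ν : Y.Om → Y'.Om) (z : Y'.Om),
    (∀ x, m.K x (ν x)) ∧ Y'.vol ≤ Y.vol + 1 ∧ Y'.area ≤ Y.area + nS ∧ BddT m ν ∧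
    ∀ w p p' q, Close w p → Close (Y.lab a0 * w) p' → IsMed p p' (g1 * w) q →
      Close (g1 * w) q ∧ ∃ ch1 ch2,
        Y'.TW tt ⟨ν (Y.src a0), w, p⟩ ⟨z, g1 * w, q⟩ (d p q) ch1 ∧
        Y'.TW tt ⟨z, g1 * w, q⟩ ⟨ν (Y.src (Y.rev a0)), Y.lab a0 * w, p'⟩ (d q p') ch2 ∧
        SameV m.pull [(.dart a0, w)] (ch1 ++ ch2)

/-- Cutting a walk at cost between 19 and 300. -/
def CutWS : Prop := ∀ (B : Type) [MulAction W B] (o : B) (Y : PS B) (c : W) (R : ℕ)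
  (n k : Y.Node) (l : ℕ) (ch : Y.Path), Y.TW (fun _ p => d c p ≤ R) n k l ch → 19 ≤ l →
  ∃ (Y' : PS B) (m : Move o Y Y') (ν : Y.Om → Y'.Om) (n2 : Y'.Node) (la lb : ℕ)
    (cha chb : Y'.Path),
    (∀ x, m.K x (ν x)) ∧ Y'.vol ≤ Y.vol + 1 ∧ Y'.area ≤ Y.area + nS ∧ BddT m ν ∧
    Y'.TW tt ⟨ν n.x, n.w, n.p⟩ n2 la cha ∧ Y'.TW tt n2 ⟨ν k.x, k.w, k.p⟩ lb chb ∧
    la + lb ≤ l ∧ 19 ≤ la ∧ la ≤ 300 ∧ d c n2.p ≤ R + 6 ∧ SameV m.pull ch (cha ++ chb)

/-- A walk inside a ball is straightened at bounded cost. -/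
def ShortS : Prop := ∀ R : ℕ, ∃ C : ℕ, ∀ (B : Type) [MulAction W B] (o : B), Thick o (2 * R + 2) →
  ∀ (Y : PS B) (c : W) (n k : Y.Node) (l : ℕ) (ch : Y.Path),
  Y.TW (fun w _ => d c w ≤ R) n k l ch → n.w • o = Y.f n.x →
  ∃ (Y' : PS B) (m : Move o Y Y') (ν : Y.Om → Y'.Om),
    (∀ x, m.K x (ν x)) ∧ Y'.vol ≤ Y.vol + C ∧ Y'.area ≤ Y.area + C ∧
    (∃ ch', Y'.TW tt ⟨ν n.x, n.w, n.p⟩ ⟨ν k.x, k.w, k.p⟩ (d n.p k.p) ch' ∧ SameV m.pull ch ch') ∧
    (k.x = n.x → k.w = n.w → SameV m.pull ch [])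

def PushS : Prop := ∃ C ρ : ℕ, ∀ (B : Type) [MulAction W B] (o : B), Thick o ρ →
  ∀ (Y : PS B) (x0 : Y.Om) (r : ℕ) (l : ℕ × Y.Path) (Λ : List (ℕ × Y.Path)),
  Y.InvL o x0 r (l :: Λ) →
  ∃ (Y' : PS B) (x0' : Y'.Om) (Λ' : List (ℕ × Y'.Path)), Y'.State ∧ Y'.InvL o x0' r Λ' ∧
    meas Λ' < meas (l :: Λ) ∧ Y'.vol ≤ Y.vol + C ∧ Y'.area ≤ Y.area + C

def M1S : Prop := ∀ (B : Type) [MulAction W B] (o : B) (Y : PS B) (Z : Set Y.Om) (pos : Y.Om → W)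
  (x0 : Y.Om) (a1 : Y.A), Y.State → Y.Bead o Z pos → x0 ∉ Z → (∀ a, Y.src a ∈ Z ↔ a = a1) →
  ∃ (Y' : PS B) (m : Move o Y Y') (x0' : Y'.Om), m.K x0 x0' ∧ Y'.State ∧ Y'.vol ≤ Y.vol ∧
    Y'.area + Y.nF Z ≤ Y.area

def M2S : Prop := ∀ (B : Type) [MulAction W B] (o : B) (Y : PS B) (Z : Set Y.Om) (pos : Y.Om → W)
  (x0 : Y.Om) (a1 a2 : Y.A), Y.State → Y.Bead o Z pos → x0 ∉ Z → a1 ≠ a2 → Y.rev a1 ≠ a2 →
  (∀ a, Y.src a ∈ Z ↔ a = a1 ∨ a = a2) →
  ∃ (Y' : PS B) (m : Move o Y Y') (x0' : Y'.Om), m.K x0 x0' ∧ Y'.State ∧ Y'.vol ≤ Y.vol ∧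
    Y'.area + Y.nF Z ≤ Y.area

def BeadDegS : Prop := ∀ (B : Type) [MulAction W B] [Finite B] (o : B), Trans o →
  ∀ (Y : PS B) (x0 : Y.Om) (r μ : ℕ) (Z : Set Y.Om) (pos : Y.Om → W), Y.State → Y.Inv o x0 r μ →
  Y.Tight o x0 r 0 → Y.Bead o Z pos → 0 < Y.nF Z →
  (x0 ∉ Z → 3 ≤ Y.deg Z) ∧ (x0 ∈ Z → 1 ≤ Y.deg Z)

def VolS : Prop := ∀ (B : Type) [MulAction W B] [Finite B] (H : ℕ), Expd B H →
  ∀ Y : PS B, Y.State → 2 * Y.vol ≤ Nat.card B → Y.vol ≤ H * Y.area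

def LamS : Prop := ∀ (B : Type) [MulAction W B] [Finite B] (H : ℕ), Expd B H →
  ∀ (Y Y' : PS B) (φ : Hom Y Y'), Y.State → Y'.State → 2 * (Y.vol + φ.new) ≤ Nat.card B →
  Y.vol + φ.new + H * Y'.area ≤ Y'.vol + H * (Y.area + nS * φ.new)

def InitS : Prop := ∀ (B : Type) [MulAction W B] [Finite B] (o : B), Trans o →
  ∀ T : Finset W, Subgroup.closure (T : Set W) = MulAction.stabilizer W o →
  ∃ (Y : PS B) (x0 : Y.Om) (μ : ℕ), Y.State ∧ Y.Inv o x0 T.card μ ∧ Y.vol = 1 ∧ Y.area ≤ nS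

/-! ### Sections 3 and 4: sweep, gain, beads -/

def StepS : Prop := ∀ (B : Type) [MulAction W B] (o : B) (n : ℕ), Thick o (2 * n + 20) →
  ∀ (Y : PS B) (x0 : Y.Om) (w0 : W) (u : Y.Chain), Y.State → w0 • o = Y.f x0 →
  (∀ c ∈ u.support, ∃ x s, c = Y.cell x {s} ∧ Y.Near n x0 x) → Y.bd u = 0 → u ≠ 0 →
  (∃ x, Y.Near (n + 1) x0 x ∧
    (u + Y.bd (Finsupp.single (Y.cell x ∅) 1)).support.card + 6 ≤ u.support.card) ∨
  ∃ J y b, Y.Att J y b

def Sweep0S : Prop := ∀ (B : Type) [MulAction W B] (o : B) (R : ℕ), Thick o (2 * R + 20) →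
  ∀ (Y : PS B) (x0 : Y.Om) (w0 : W) (m n : ℕ) (u : Y.Chain), Y.State → w0 • o = Y.f x0 →
  n + m ≤ R → u.support.card ≤ m →
  (∀ c ∈ u.support, ∃ x s, c = Y.cell x {s} ∧ Y.Near n x0 x) → Y.bd u = 0 →
  (∃ Z : Finset Y.Om, Y.bd (Y.ch0 Z) = u ∧ Z.card ≤ m ∧ ∀ z ∈ Z, Y.Near (n + m) x0 z) ∨
  ∃ J y b, Y.Att J y b

def SweepS : Prop := ∀ (B : Type) [MulAction W B] (o : B) (R : ℕ), Thick o (2 * R + 20) →
  ∀ (Y : PS B) (x0 : Y.Om) (w0 : W) (m n : ℕ) (u : Y.Chain), Y.State → w0 • o = Y.f x0 →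
  n + m ≤ R → u.support.card ≤ m →
  (∀ c ∈ u.support, ∃ x s, c = Y.cell x {s} ∧ Y.Near n x0 x) → Y.bd u = 0 →
  ∃ (Y' : PS B) (φ : Hom Y Y') (Z : Finset Y'.Om), Y'.State ∧ φ.Good ∧ φ.Ctl 0 ∧
    Y'.bd (Y'.ch0 Z) = φ.push u ∧ Z.card ≤ m ∧ ∀ z ∈ Z, Y'.Near (n + m) (φ.π x0) z

/-- Every rank 2 cell with a free side has exactly two free sides. -/
def EdgeS : Prop := ∀ (B : Type) [MulAction W B], Loc B → ∀ Y : PS B, Y.State →
  ∀ x s t, adj s t → Y.Free x s → ∃ y u v, Y.Free y u ∧ adj u v ∧ (y, u) ≠ (x, s) ∧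
    Y.cell y {u, v} = Y.cell x {s, t} ∧
    ∀ y' u' v', Y.Free y' u' → adj u' v' → Y.cell y' {u', v'} = Y.cell x {s, t} →
      (y' = x ∧ u' = s ∧ v' = t) ∨ (y' = y ∧ u' = u ∧ v' = v)

/-- The boundary of a set of free sides. -/
def BdS : Prop := ∀ (B : Type) [MulAction W B], Loc B → ∀ Y : PS B, Y.State →
  ∀ D : Finset (Y.Om × S), (∀ p ∈ D, Y.Free p.1 p.2) → ∀ c, c ∈ (Y.bd (Y.ch1 D)).support ↔
    ∃ p ∈ D, ∃ t, adj p.2 t ∧ c = Y.cell p.1 {p.2, t} ∧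
      ∀ q ∈ D, ∀ t', adj q.2 t' → Y.cell q.1 {q.2, t'} = c → q = p

def CapS : Prop := ∃ CK : ℕ, ∀ m0 : ℕ, ∃ ρ : ℕ, ∀ (B : Type) [MulAction W B] (o : B), Trans o →
  Thick o ρ → ∀ (Y : PS B) (D : Finset (Y.Om × S)) (p0 : Y.Om × S), Y.State → Y.BConn D →
  p0 ∈ D → D.card ≤ m0 →
  ∃ (Y' : PS B) (φ : Hom Y Y') (κ : ℕ) (E : Y'.Chain), Y'.State ∧ φ.Good ∧ φ.Ctl κ ∧
    κ ≤ CK * (Y.bd (Y.ch1 D)).support.card ∧ E.support.card ≤ nS * κ ∧
    Y'.bd (φ.push (Y.ch1 D) + E) = 0 ∧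
    ∀ c ∈ (φ.push (Y.ch1 D) + E).support, ∃ x s, c = Y'.cell x {s} ∧
      Y'.Near (2 * m0 + κ) (φ.π p0.1) x

def CountS : Prop := ∀ (B : Type) [MulAction W B] (Y Y' : PS B) (φ : Hom Y Y')
  (D : Finset (Y.Om × S)) (E : Y'.Chain) (Z : Finset Y'.Om), Y.State → Y'.State →
  (∀ p ∈ D, Y.Free p.1 p.2) → Y'.bd (Y'.ch0 Z) = φ.push (Y.ch1 D) + E → Y.area ≤ Y'.area →
  D.card ≤ Y'.nF Z + 2 * (nS * φ.new) + E.support.card ∧
    Y'.front Z ≤ nS * φ.new + E.support.card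

def RemS : Prop := ∃ CQ : ℕ, ∀ (B : Type) [MulAction W B] (o : B) (R : ℕ), Trans o →
  Thick o (2 * R + 2) → ∀ (Y : PS B) (x0 x1 : Y.Om) (Z : Finset Y.Om), Y.State → Y.H0 o x0 →
  (∀ z ∈ Z, Y.Near R x1 z) →
  ∃ (Y' : PS B) (m : Move o Y Y') (x0' : Y'.Om), m.K x0 x0' ∧ Y'.State ∧
    Y'.vol ≤ Y.vol + CQ * (Y.front Z + Y.ends x0 Z) ∧
    Y'.area + Y.nF Z ≤ Y.area + CQ * (Y.front Z + Y.ends x0 Z)

def GainS : Prop := ∃ Cs : ℕ, ∀ H m0 : ℕ, ∃ R C ρ : ℕ, ∀ (B : Type) [MulAction W B] [Finite B]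
  (o : B), Trans o → Thick o ρ → Expd B H → ∀ (Y : PS B) (x0 : Y.Om) (r μ : ℕ), Y.State →
  Y.Inv o x0 r μ → 2 * (Y.vol + C) ≤ Nat.card B → Y.Tight o x0 r C →
  ∀ D : Finset (Y.Om × S), Y.BConn D → D.card ≤ m0 →
  D.card ≤ Cs * ((Y.bd (Y.ch1 D)).support.card + Y.endsN x0 R D)

def BeadS : Prop := ∀ S0 : ℕ, ∃ ρ : ℕ, ∀ (B : Type) [MulAction W B] (o : B), Trans o →
  Thick o ρ → ∀ (Y : PS B) (x0 : Y.Om) (r : ℕ), Y.State → Y.Tight o x0 r 1 →
  ∀ T : Finset (Y.Om × S), Y.BConn T → T.Nonempty → T.card ≤ S0 →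
  (∀ p ∈ T, ∀ q, Y.BAdj p q → q ∈ T) →
  ∃ Z pos, Y.Bead o Z pos ∧ ∀ p : Y.Om × S, p ∈ T ↔ p.1 ∈ Z ∧ Y.Free p.1 p.2

/-! ### Section 5a: abstract surfaces -/

/-- Sides, edges and vertices; every edge has two sides and two end points. -/
structure Surf : Type 1 where
  F : Type
  Ed : Type
  V : Type
  [finF : Finite F]
  [finE : Finite Ed]
  [finV : Finite V]
  l : Ed → F
  r : Ed → F
  p : Ed → V
  q : Ed → V

attribute [instance] Surf.finF Surf.finE Surf.finV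

namespace Surf

variable (X : Surf)

def cut (P : Set X.F) (ε : X.Ed) : Prop := ¬ (X.l ε ∈ P ↔ X.r ε ∈ P)

/-- Adjacency of sides through an edge in `G`. -/
def DA (G : Set X.Ed) (a b : X.F) : Prop :=
  ∃ ε ∈ G, (X.l ε = a ∧ X.r ε = b) ∨ (X.l ε = b ∧ X.r ε = a)

abbrev DAdj : X.F → X.F → Prop := X.DA Set.univ

def PAdj (a b : X.V) : Prop := ∃ ε, (X.p ε = a ∧ X.q ε = b) ∨ (X.p ε = b ∧ X.q ε = a)

noncomputable def ncomp (G : Set X.Ed) : ℕ := Nat.card (Quot (X.DA G))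

def DConn (D : Finset X.F) : Prop :=
  ∀ a ∈ D, ∀ b ∈ D, Relation.ReflTransGen (fun u v => u ∈ D ∧ v ∈ D ∧ X.DAdj u v) a b

structure OK : Prop where
  deg : ∀ σ, {ε | X.l ε = σ ∨ X.r ε = σ}.ncard ≤ nS
  par : ∀ (P : Set X.F) ε v, X.cut P ε → (X.p ε = v ∨ X.q ε = v) →
    ∃ ε', ε' ≠ ε ∧ X.cut P ε' ∧ (X.p ε' = v ∨ X.q ε' = v)
  cor : ∀ σ ε ε', (X.l ε = σ ∨ X.r ε = σ) → (X.l ε' = σ ∨ X.r ε' = σ) →
    Rn X.PAdj (nS + 1) (X.p ε) (X.p ε')
  covV : ∀ v, ∃ ε, X.p ε = v ∨ X.q ε = v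
  covF : ∀ σ, ∃ ε, X.l ε = σ ∨ X.r ε = σ

end Surf

def ForestS : Prop := ∀ X : Surf, X.OK → ∀ (RV : Set X.V) (δ : ℕ),
  (∀ v, ∃ u ∈ RV, Rn X.PAdj δ u v) →
  ∃ Fo : Set X.Ed, Nat.card X.V ≤ Fo.ncard + RV.ncard ∧
    ∀ P : Set X.F, {ε | X.cut P ε ∧ ε ∈ Fo}.ncard ≤ 2 * δ * {ε | X.cut P ε ∧ ε ∉ Fo}.ncard

def TreeS : Prop := ∀ X : Surf, X.OK → ∀ (G : Set X.Ed) (m : ℕ), 0 < m →
  ∃ top : X.F → X.F, (∀ t, {σ | top σ = t}.ncard ≤ nS * m + 1) ∧
    (∀ σ, Relation.ReflTransGen (fun a b => top a = top σ ∧ top b = top σ ∧ X.DA G a b) σ (top σ)) ∧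
    {ε | ε ∈ G ∧ top (X.l ε) ≠ top (X.r ε)}.ncard + Nat.card X.F ≤
      G.ncard + X.ncomp G + Nat.card X.F / m

def LemSS : Prop := ∀ X : Surf, X.OK → ∀ (R : Set X.F) (ρ m : ℕ), 0 < m →
  (∀ σ, ∃ t ∈ R, Rn X.DAdj ρ t σ) →
  ∃ (top : X.F → X.F) (sp : ℕ), (∀ t, {σ | top σ = t}.ncard ≤ nS * m + 1) ∧
    (∀ σ, Relation.ReflTransGen (fun a b => top a = top σ ∧ top b = top σ ∧ X.DAdj a b) σ (top σ)) ∧
    {ε | top (X.l ε) ≠ top (X.r ε)}.ncard ≤ (2 * ((nS + 1) * ρ + (nS + 2)) + 1) * sp ∧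
    sp + Nat.card X.V + Nat.card X.F ≤
      Nat.card X.Ed + R.ncard + X.ncomp Set.univ + Nat.card X.F / m

def AbsChiS : Prop := ∀ X : Surf, X.OK →
  Nat.card X.V + Nat.card X.F ≤ Nat.card X.Ed + 2 * X.ncomp Set.univ

def AbsS : Prop := ∀ Cs : ℕ, ∃ m0 C1 C2 : ℕ, ∀ X : Surf, X.OK → ∀ (en : Finset X.F → ℕ) (En : ℕ),
  (∀ D D', D ⊆ D' → en D ≤ en D') →
  (∀ 𝒟 : Finset (Finset X.F), (∀ D ∈ 𝒟, ∀ D' ∈ 𝒟, D ≠ D' → Disjoint D D') →
    ∑ D ∈ 𝒟, en D ≤ En) →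
  (∀ D : Finset X.F, X.DConn D → D.card ≤ m0 →
    D.card ≤ Cs * ({ε | X.cut (D : Set X.F) ε}.ncard + en D)) →
  Nat.card X.F + C1 * (Nat.card X.V + Nat.card X.F) ≤
    C1 * (Nat.card X.Ed + X.ncomp Set.univ) + C2 * En

/-- The boundary of a union of thick components is an abstract surface. -/
def InstS : Prop := ∀ (B : Type) [MulAction W B], Loc B → ∀ (Y : PS B) (U : Set Y.Om), Y.State →
  Y.Shut U → ∃ (X : Surf) (e : X.F ↪ Y.Om × S), X.OK ∧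
    (∀ a, (e a).1 ∈ U ∧ Y.Free (e a).1 (e a).2) ∧ Nat.card X.F = Y.nF U ∧
    Nat.card X.V = Y.nV U ∧ 2 * Nat.card X.Ed = Y.nD U ∧ X.ncomp Set.univ = Y.nB U ∧
    (∀ a b, X.DAdj a b → Y.BAdj (e a) (e b)) ∧
    ∀ D : Finset X.F, {ε | X.cut (D : Set X.F) ε}.ncard = (Y.bd (Y.ch1 (D.map e))).support.card

def TIneqS : Prop := ∃ C1 : ℕ, ∀ H : ℕ, ∃ C2 C ρ : ℕ, ∀ (B : Type) [MulAction W B] [Finite B]
  (o : B), Trans o → Thick o ρ → Expd B H → ∀ (Y : PS B) (x0 : Y.Om) (r μ : ℕ), Y.State →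
  Y.Inv o x0 r μ → 2 * (Y.vol + C) ≤ Nat.card B → Y.Tight o x0 r C →
  ∀ U : Set Y.Om, Y.Shut U →
  2 * Y.nF U + 2 * C1 * (Y.nV U + Y.nF U) ≤ C1 * Y.nD U + 2 * C1 * Y.nB U + 2 * C2 * Y.ends x0 U

def ChiLeS : Prop := ∀ (B : Type) [MulAction W B], Loc B → ∀ (Y : PS B) (U : Set Y.Om), Y.State →
  Y.Shut U → 2 * Y.nV U + 2 * Y.nF U ≤ Y.nD U + 4 * Y.nB U

/-! ### Section 5b: the dual cube complex -/

def CoefS : Prop := ∀ (B : Type) [MulAction W B], Loc B → ∀ Y : PS B, Y.State →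
  ∀ (u : Y.Chain) x J, Clq J → Y.Full x J → Y.bd u (Y.cell x J) =
    ∑ s ∈ J, (u (Y.cell x (J.erase s)) + u (Y.cell (Y.sg s x) (J.erase s)))

def PsizeS : Prop := ∀ (B : Type) [MulAction W B], Loc B → ∀ Y : PS B, Y.State →
  ∀ J, Clq J → {x | Y.Full x J}.ncard = 2 ^ J.card * {c | ∃ x, Y.Full x J ∧ c = Y.cell x J}.ncard

def TauVS : Prop := ∀ (B : Type) [MulAction W B], Loc B → ∀ Y : PS B, Y.State →
  ∀ s t u, adj s t → adj t u → adj s u →
  8 * Y.vol + 2 * ({x | Y.Full x {s, t}}.ncard + {x | Y.Full x {t, u}}.ncard +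
      {x | Y.Full x {s, u}}.ncard) ≤
    8 * {c | ∃ x, (∃ v ∈ ({s, t, u} : Finset S), Y.Free x v) ∧ c = Y.cell x {s, t, u}}.ncard +
      4 * ({x | Y.Full x {s}}.ncard + {x | Y.Full x {t}}.ncard + {x | Y.Full x {u}}.ncard) +
      2 * {x | Y.Full x {s, t, u}}.ncard

def ChiPS : Prop := ∀ (B : Type) [MulAction W B], Loc B → ∀ Y : PS B, Y.State →
  4 * Y.vol + 4 * Y.nC 2 + Y.nD Set.univ ≤
    2 * Y.nV Set.univ + 2 * Y.area + 4 * Y.nC 1 + 4 * Y.nC 3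

/-- Every thick component has a free side. -/
def FreeExS : Prop := ∀ (B : Type) [MulAction W B] [Finite B] (o : B), Trans o → ∀ Y : PS B,
  Y.vol < Nat.card B → ∀ x, ∃ y s n, Y.Near n x y ∧ Y.Free y s

def SurjS : Prop := ∀ (B : Type) [MulAction W B] (Y : PS B), Y.State →
  (∀ x, ∃ y s n, Y.Near n x y ∧ Y.Free y s) → Y.bb 2 = Y.nC 3

def EulerS : Prop := ∀ (B : Type) [MulAction W B] (Y : PS B),
  Y.nC 1 = Y.zz 1 + Y.bb 1 ∧ Y.nC 2 = Y.zz 2 + Y.bb 2 ∧ Y.bb 1 ≤ Y.zz 2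

def ZLowS : Prop := ∀ (B : Type) [MulAction W B] (o : B), Loc B → ∀ (Y : PS B) (x0 : Y.Om)
  (r μ : ℕ), Y.State → Y.Inv o x0 r μ → 2 * Y.zz 1 + Nat.card Y.A ≤ 2 * Y.vol + 2 * r

def ArcS : Prop := ∀ (B : Type) [MulAction W B] (o : B) (Y : PS B) (x0 : Y.Om) (r μ : ℕ),
  Y.Inv o x0 r μ → Nat.card Y.A ≤ 2 * r + 2 * Y.nK

def CoreAS : Prop := ∀ (B : Type) [MulAction W B] (o : B), Trans o → ∀ (Y : PS B) (x0 : Y.Om),
  Y.H0 o x0 → (∀ c : Y.Coch W, Cocyc c → Cobd c) → ∀ c : Y.Coch Unit, Cocyc c →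
  ∃ (η : S → B → F2) (ψ : W → F2) (φ : Y.Om → F2),
    (∀ s w, η s (w • o) = ψ w + ψ (g s * w)) ∧
    (∀ s x y, Y.e s x y → c (.edge s x y) () = η s (Y.f x) + φ x + φ y) ∧
    ∀ a w, w • o = Y.f (Y.src a) →
      c (.dart a) () = ψ w + ψ (Y.lab a * w) + φ (Y.src a) + φ (Y.src (Y.rev a))

def CoreBS : Prop := ∀ (B : Type) [MulAction W B] (o : B), Trans o → ∀ (Y : PS B) (x0 : Y.Om),
  Y.H0 o x0 → (∀ c : Y.Coch W, Cocyc c → Cobd c) →
  ∀ (z : S → S → B → F2) (c : S → Y.Om → Y.Om → F2),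
  (∀ s t b, adj s t → z s t b = z t s b) → (∀ s t b, adj s t → z s t (g s • b) = z s t b) →
  (∀ s t u b, adj s t → adj t u → adj s u →
    z s t b + z s t (g u • b) + z t u b + z t u (g s • b) + z s u b + z s u (g t • b) = 0) →
  (∀ s x y, Y.e s x y → c s y x = c s x y) →
  (∀ s t x0 x1 x2 x3, adj s t → Y.e s x0 x1 → Y.e t x1 x2 → Y.e s x2 x3 → Y.e t x3 x0 →
    c s x0 x1 + c t x1 x2 + c s x2 x3 + c t x3 x0 = z s t (Y.f x0)) →
  ∃ η : S → B → F2, (∀ s b, η s (g s • b) = η s b) ∧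
    ∀ s t b, adj s t → z s t b = η s b + η s (g t • b) + η t b + η t (g s • b)

def EndAS : Prop := ∀ (B : Type) [MulAction W B] [Finite B] (o : B), Trans o → Loc B →
  ∀ (Y : PS B) (x0 : Y.Om), Y.State → Y.H0 o x0 → (∀ c : Y.Coch W, Cocyc c → Cobd c) →
  2 * Y.zz 1 + Nat.card Y.A + 2 * Nat.card B ≤ 2 * Y.vol + 2 * (fullPS B).zz 1

def EndBS : Prop := ∀ (B : Type) [MulAction W B] [Finite B] (o : B), Trans o → Loc B →
  ∀ (Y : PS B) (x0 : Y.Om), Y.State → Y.H0 o x0 → (∀ c : Y.Coch W, Cocyc c → Cobd c) →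
  (fullPS B).zz 2 + Y.bb 1 ≤ Y.zz 2 + (fullPS B).bb 1

def EndMS : Prop := ∀ (B : Type) [MulAction W B] [Finite B] [Nonempty B], Loc B →
  (fullPS B).bb 2 + 1 ≤ (fullPS B).nC 3 ∧
    Nat.card B + (fullPS B).nC 2 = (fullPS B).nC 1 + (fullPS B).nC 3

/-! ### Section 5c: tight states -/

def AddS : Prop := ∀ (B : Type) [MulAction W B] (Y : PS B) (x0 : Y.Om) (U : Set Y.Om), Y.Shut U →
  Y.nF Set.univ = Y.area ∧ Y.nF U + Y.nF Uᶜ = Y.area ∧ Y.nV Set.univ ≤ Y.nV U + Y.nV Uᶜ ∧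
  Y.nB Set.univ ≤ Y.nB U + Y.nB Uᶜ ∧ Y.deg U + Y.deg Uᶜ = Nat.card Y.A ∧
  Y.ends x0 U ≤ Y.deg U + 1 ∧ Y.ends x0 Set.univ ≤ Nat.card Y.A + 1 ∧
  Y.nD U + Y.nD Uᶜ = Y.nD Set.univ

def StructS : Prop := ∀ S0 : ℕ, ∃ ρ : ℕ, ∀ (B : Type) [MulAction W B] [Finite B] (o : B),
  Trans o → Thick o ρ → ∀ (Y : PS B) (x0 : Y.Om) (r μ : ℕ), Y.State → Y.Inv o x0 r μ →
  Y.vol < Nat.card B → Y.Tight o x0 r 1 →
  ∃ (U : Set Y.Om) (kb : ℕ), Y.Shut U ∧ Y.nB U ≤ kb ∧ 3 * kb ≤ Y.deg U + 3 ∧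
    2 * kb ≤ Y.deg U + 1 ∧ S0 * Y.nB Uᶜ ≤ Y.nF Uᶜ ∧ Y.nK ≤ kb + Y.nB Uᶜ

def AreaS : Prop := ∀ H : ℕ, ∃ A C ρ : ℕ, ∀ (B : Type) [MulAction W B] [Finite B] (o : B),
  Trans o → Thick o ρ → Expd B H → ∀ (Y : PS B) (x0 : Y.Om) (r μ : ℕ), Y.State →
  Y.Inv o x0 r μ → 2 * (Y.vol + C) ≤ Nat.card B → Y.Tight o x0 r C → Y.area ≤ A * (r + 1)

def NoEndS : Prop := ∀ H : ℕ, ∃ C ρ : ℕ, ∀ (B : Type) [MulAction W B] [Finite B] (o : B),
  Trans o → Thick o ρ → Expd B H → ∀ (Y : PS B) (x0 : Y.Om) (r : ℕ), Y.State →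
  Y.InvL o x0 r [] → 2 * (Y.vol + C) ≤ Nat.card B → ¬ Y.Tight o x0 r C

def MainS : Prop := ∀ H : ℕ, ∃ A ρ : ℕ, ∀ (B : Type) [MulAction W B] [Finite B] (o : B),
  Trans o → Thick o ρ → Expd B H → ∀ T : Finset W,
  Subgroup.closure (T : Set W) = MulAction.stabilizer W o → Nat.card B ≤ A * (T.card + 1)

end Pool.Agent.MP_df844f_gt.RA

end
end MrgPart0

-- ======== part 1: formerly Pool.Agent.MP_df844f_gt.RA.Main
section MrgPart1

set_option linter.unusedSectionVars false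

noncomputable section

namespace Pool.Agent.MP_df844f_gt.RA

variable [Dat]

open PS

theorem mainS (hi : InitS) (hp : PushS) (ha : AreaS) (hn : NoEndS) (hv : VolS) : MainS := by
  intro H
  obtain ⟨A, C1, ρ1, ha⟩ := ha H
  obtain ⟨C2, ρ2, hn⟩ := hn H
  obtain ⟨Cp, ρ3, hp⟩ := hp
  refine ⟨2 * (H * (A + Cp + nS) + 1 + (C1 + C2) + Cp), ρ1 + ρ2 + ρ3, ?_⟩
  intro B _ _ o ht hth he T hT
  by_contra hlt
  push Not at hlt
  generalize hr : T.card = r at hlt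
  have hA : H * (A * (r + 1) + Cp + nS) ≤ H * (A + Cp + nS) * (r + 1) := by
    rw [mul_assoc]
    exact Nat.mul_le_mul_left _ (by nlinarith)
  have hN : 2 * (H * (A * (r + 1) + Cp + nS) + 1 + (C1 + C2) + Cp) ≤ Nat.card B := by nlinarith
  generalize hA' : A * (r + 1) + Cp + nS = A' at hA hN
  have key : ∀ (μ a : ℕ) (Y : PS B) (x0 : Y.Om), Y.State → Y.Inv o x0 r μ → Y.area = a →
      a ≤ A' → Y.vol ≤ H * A' + 1 → False := by
    intro μ
    induction μ using Nat.strong_induction_on with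
    | _ μ ihμ =>
      intro a
      induction a using Nat.strong_induction_on with
      | _ a iha =>
        intro Y x0 hs hI hae hal hvl
        have small : ∀ Y' : PS B, Y'.State → Y'.vol ≤ Y.vol + (C1 + C2) + Cp → Y'.area ≤ A' →
            Y'.vol ≤ H * A' + 1 := by
          intro Y' hs' h1 h2
          have := hv B H he Y' hs' (by omega)
          have := Nat.mul_le_mul_left H h2
          omega
        by_cases tg : Y.Tight o x0 r (C1 + C2)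
        · have h1 := ha B o ht (hth.mono (by omega)) he Y x0 r μ hs hI (by omega)
            (tg.mono (by omega))
          obtain ⟨Λ, hΛ, hm⟩ := hI
          cases Λ with
          | nil =>
            exact hn B o ht (hth.mono (by omega)) he Y x0 r hs hΛ (by omega) (tg.mono (by omega))
          | cons l Λ =>
            obtain ⟨Y', x0', Λ', a1, a2, a3, a4, a5⟩ := hp B o (hth.mono (by omega)) Y x0 r l Λ hΛ
            exact ihμ (meas Λ') (by omega) _ Y' x0' a1 ⟨Λ', a2, le_rfl⟩ rfl (by omega)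
              (small Y' a1 (by omega) (by omega))
        · unfold PS.Tight at tg
          push Not at tg
          obtain ⟨Y', x0', a1, a2, a3, a4⟩ := tg
          exact iha Y'.area (by omega) Y' x0' a1 (a2 μ hI) rfl (by omega)
            (small Y' a1 (by omega) (by omega))
  obtain ⟨Y, x0, μ, a1, a2, a3, a4⟩ := hi B o ht T hT
  rw [hr] at a2
  exact key μ _ Y x0 a1 a2 rfl (by omega) (by omega)

instance fgW : Group.FG W :=
  ⟨⟨Finset.univ.image g, by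
    rw [Finset.coe_image, Finset.coe_univ, Set.image_univ]
    exact cs.subgroup_closure_range_simple⟩⟩

theorem final_of (hm : MainS) (h : ℝ) (hh : 0 < h) :
    ∃ (ρ : ℕ) (c : ℝ), 0 < c ∧ ∀ (Γ : Subgroup W) [Γ.FiniteIndex],
      (∀ γ ∈ Γ, γ ≠ 1 → ∀ w : W, ρ < len (w * γ * w⁻¹)) →
      (∀ U : Set (W ⧸ Γ), 2 * U.ncard ≤ Γ.index →
        h * U.ncard ≤ {p : (W ⧸ Γ) × S | p.1 ∈ U ∧ g p.2 • p.1 ∉ U}.ncard) →
      c * Γ.index ≤ Group.rank Γ := by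
  obtain ⟨A, ρ, hm⟩ := hm ⌈1 / h⌉₊
  refine ⟨ρ, 1 / (2 * (A + 1)), by positivity, ?_⟩
  intro Γ _ hinj hexp
  obtain ⟨T0, hT1, hT2⟩ := Group.rank_spec Γ
  have hcl : Subgroup.closure ((T0.image Γ.subtype : Finset W) : Set W) = Γ := by
    rw [Finset.coe_image, ← MonoidHom.map_closure, hT2, ← MonoidHom.range_eq_map,
      Subgroup.range_subtype]
  have hsm : ∀ w : W, w • ((1 : W) : W ⧸ Γ) = (w : W ⧸ Γ) := fun w => by
    rw [MulAction.Quotient.smul_coe, smul_eq_mul, mul_one]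
  have h1 := hm (W ⧸ Γ) ((1 : W) : W ⧸ Γ)
    (fun b => by
      obtain ⟨w, rfl⟩ := QuotientGroup.mk_surjective b
      exact ⟨w, hsm w⟩)
    (fun w w' e hd => by
      rw [hsm, hsm, QuotientGroup.eq] at e
      by_contra hne
      have := hinj _ e (fun k => hne (inv_mul_eq_one.1 k)) w
      rw [d_comm] at hd
      unfold d at hd
      have e2 : w * (w⁻¹ * w') * w⁻¹ = w' * w⁻¹ := by group
      rw [e2] at this
      omega)
    (fun U hU => by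
      have a := hexp U hU
      have b : 1 / h ≤ (⌈1 / h⌉₊ : ℝ) := Nat.le_ceil _
      have c : (U.ncard : ℝ) ≤ (⌈1 / h⌉₊ : ℝ) *
          ({p : (W ⧸ Γ) × S | p.1 ∈ U ∧ g p.2 • p.1 ∉ U}.ncard : ℝ) := by
        calc (U.ncard : ℝ) = 1 / h * (h * U.ncard) := by field_simp
          _ ≤ _ := mul_le_mul b a (by positivity) (by positivity)
      exact_mod_cast c)
    (T0.image Γ.subtype)
    (by rw [hcl, MulAction.stabilizer_quotient])
  have h2 : (T0.image Γ.subtype).card ≤ Group.rank Γ := hT1 ▸ Finset.card_image_le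
  have h3 : 1 ≤ (T0.image Γ.subtype).card := by
    by_contra k
    have k' : T0.image Γ.subtype = ∅ := Finset.card_eq_zero.1 (by omega)
    rw [k', Finset.coe_empty, Subgroup.closure_empty] at hcl
    have := Subgroup.FiniteIndex.index_ne_zero (H := Γ)
    rw [← hcl, Subgroup.index_bot] at this
    exact this (@Nat.card_eq_zero_of_infinite W infinite_W)
  have h4 : Γ.index ≤ 2 * (A + 1) * Group.rank Γ := by
    have : Γ.index = Nat.card (W ⧸ Γ) := rfl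
    nlinarith
  have h5 : (Γ.index : ℝ) ≤ 2 * (A + 1) * Group.rank Γ := by exact_mod_cast h4
  rw [div_mul_eq_mul_div, one_mul, div_le_iff₀ (by positivity)]
  linarith

end Pool.Agent.MP_df844f_gt.RA

end
end MrgPart1

-- ======== part 2: formerly Pool.Agent.MP_df844f_gt.RA.Spec2
section MrgPart2

/-! Strengthened forms of three statements: the volume is controlled in the gain case. -/

set_option linter.unusedSectionVars false

noncomputable section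

namespace Pool.Agent.MP_df844f_gt.RA

variable [Dat]

open PS

def Wedge2S : Prop := ∀ (B : Type) [MulAction W B] (o : B) (Y : PS B) (J : Type) [Fintype J]
  (z : J → Y.Om) (w : J → W) (K : J → Finset W) (s0 : S),
  (∀ j, w j • o = Y.f (z j)) → (∀ j, Cvx (K j : Set W)) → (∀ j, w j ∈ K j) →
  ∀ h : ∀ j, g s0 * w j ∈ K j,
  ∃ (Y' : PS B) (φ : Hom Y Y') (ι : ∀ j, EHom (cvxPS (K j)) Y'),
    φ.Good ∧ φ.Ctl (∑ j, (K j).card) ∧ φ.new ≤ ∑ j, (K j).card ∧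
    (∀ j k, Y'.f ((ι j).π k) = k.1 • o) ∧
    ∀ j, Y'.e s0 (φ.π (z j)) ((ι j).π ⟨g s0 * w j, h j⟩)

def Cap2S : Prop := ∃ CK : ℕ, ∀ m0 : ℕ, ∃ ρ : ℕ, ∀ (B : Type) [MulAction W B] (o : B), Trans o →
  Thick o ρ → ∀ (Y : PS B) (D : Finset (Y.Om × S)) (p0 : Y.Om × S), Y.State → Y.BConn D →
  p0 ∈ D → D.card ≤ m0 →
  ∃ (Y' : PS B) (φ : Hom Y Y') (κ : ℕ) (E : Y'.Chain), Y'.State ∧ φ.Good ∧ φ.Ctl κ ∧
    φ.new ≤ κ ∧ κ ≤ CK * (Y.bd (Y.ch1 D)).support.card ∧ E.support.card ≤ nS * κ ∧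
    Y'.bd (φ.push (Y.ch1 D) + E) = 0 ∧
    ∀ c ∈ (φ.push (Y.ch1 D) + E).support, ∃ x s, c = Y'.cell x {s} ∧
      Y'.Near (2 * m0 + κ) (φ.π p0.1) x

/-- The sweep stops at the first time the area falls below `a`. -/
def Sweep2S : Prop := ∀ (B : Type) [MulAction W B] (o : B) (R : ℕ), Thick o (2 * R + 20) →
  ∀ (Y : PS B) (x0 : Y.Om) (w0 : W) (m n a : ℕ) (u : Y.Chain), Y.State → w0 • o = Y.f x0 →
  n + m ≤ R → u.support.card ≤ m → a ≤ Y.area →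
  (∀ c ∈ u.support, ∃ x s, c = Y.cell x {s} ∧ Y.Near n x0 x) → Y.bd u = 0 →
  ∃ (Y' : PS B) (φ : Hom Y Y'), Y'.State ∧ φ.Good ∧ φ.Ctl 0 ∧
    ((Y'.area < a ∧ φ.new + a ≤ Y.area + 1) ∨
      (a ≤ Y'.area ∧ ∃ Z : Finset Y'.Om, Y'.bd (Y'.ch0 Z) = φ.push u ∧ Z.card ≤ m ∧
        ∀ z ∈ Z, Y'.Near (n + m) (φ.π x0) z))

end Pool.Agent.MP_df844f_gt.RA

end
end MrgPart2

-- ======== part 3: formerly Pool.Agent.MP_df844f_gt.RA.s2.M2
section MrgPart3

/-! Deleting a bead with two darts. -/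

set_option linter.unusedSectionVars false

noncomputable section

namespace Pool.Agent.MP_df844f_gt.RA

variable [RA.Dat]

open PS

namespace M2A

/-- A bead with exactly two darts, exchanged by `σ`. -/
structure Dat {B : Type} [MulAction W B] (o : B) (Y : PS B) : Type where
  Z : Set Y.Om
  pos : Y.Om → W
  σ : Y.A → Y.A
  a1 : Y.A
  bead : Y.Bead o Z pos
  h1 : Y.src a1 ∈ Z
  ss : ∀ a, σ (σ a) = a
  sm : ∀ a, Y.src a ∈ Z → Y.src (σ a) ∈ Z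
  sn : ∀ a, Y.src a ∈ Z → σ a ≠ a
  out : ∀ a, Y.src a ∈ Z → Y.src (Y.rev a) ∉ Z
  two : ∀ a a', Y.src a ∈ Z → Y.src a' ∈ Z → a' = a ∨ a' = σ a

namespace Dat

variable {B : Type} [MulAction W B] {o : B} {Y : PS B} (D : Dat o Y)

open Classical in
noncomputable def rv (a : Y.A) : Y.A :=
  if Y.src (Y.rev a) ∈ D.Z then Y.rev (D.σ (Y.rev a)) else Y.rev a

open Classical in
noncomputable def lb (a : Y.A) : W :=
  if Y.src (Y.rev a) ∈ D.Z then
    Y.lab (D.σ (Y.rev a)) * (D.pos (Y.src (D.σ (Y.rev a))) * ((D.pos (Y.src (Y.rev a)))⁻¹ * Y.lab a))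
  else Y.lab a

theorem rv_in {a : Y.A} (h : Y.src (Y.rev a) ∈ D.Z) : D.rv a = Y.rev (D.σ (Y.rev a)) := if_pos h
theorem rv_out {a : Y.A} (h : Y.src (Y.rev a) ∉ D.Z) : D.rv a = Y.rev a := if_neg h
theorem lb_in {a : Y.A} (h : Y.src (Y.rev a) ∈ D.Z) : D.lb a = Y.lab (D.σ (Y.rev a)) *
    (D.pos (Y.src (D.σ (Y.rev a))) * ((D.pos (Y.src (Y.rev a)))⁻¹ * Y.lab a)) := if_pos h
theorem lb_out {a : Y.A} (h : Y.src (Y.rev a) ∉ D.Z) : D.lb a = Y.lab a := if_neg h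

theorem rv_not (a : Y.A) : Y.src (D.rv a) ∉ D.Z := by
  by_cases h : Y.src (Y.rev a) ∈ D.Z
  · rw [D.rv_in h]; exact D.out _ (D.sm _ h)
  · rwa [D.rv_out h]

theorem rv_in' {a : Y.A} (h : Y.src (Y.rev a) ∈ D.Z) : Y.src (Y.rev (D.rv a)) ∈ D.Z := by
  rw [D.rv_in h, Y.rev_rev]; exact D.sm _ h

theorem e_out {s : S} {x y : Y.Om} (h : Y.e s x y) (hx : x ∉ D.Z) : y ∉ D.Z :=
  D.bead.shut.compl s x y h hx

/-- The prestate without the bead. -/
noncomputable def Y' : PS B where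
  Om := {x // x ∉ D.Z}
  A := {a // Y.src a ∉ D.Z}
  f x := Y.f x.1
  e s x y := Y.e s x.1 y.1
  e_symm h := Y.e_symm h
  e_f h := Y.e_f h
  rev a := ⟨D.rv a.1, D.rv_not a.1⟩
  rev_rev a := Subtype.ext (by
    show D.rv (D.rv a.1) = a.1
    by_cases h : Y.src (Y.rev a.1) ∈ D.Z
    · rw [D.rv_in (D.rv_in' h), D.rv_in h, Y.rev_rev, D.ss, Y.rev_rev]
    · rw [D.rv_out h, D.rv_out (by rw [Y.rev_rev]; exact a.2), Y.rev_rev])
  rev_ne a := fun e => by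
    have e' : D.rv a.1 = a.1 := congrArg Subtype.val e
    by_cases h : Y.src (Y.rev a.1) ∈ D.Z
    · rw [D.rv_in h] at e'
      exact D.sn _ h (by rw [← Y.rev_rev (D.σ _), e'])
    · rw [D.rv_out h] at e'
      exact Y.rev_ne _ e'
  src a := ⟨Y.src a.1, a.2⟩
  lab a := D.lb a.1
  lab_rev a := by
    show D.lb (D.rv a.1) = (D.lb a.1)⁻¹
    by_cases h : Y.src (Y.rev a.1) ∈ D.Z
    · rw [D.lb_in (D.rv_in' h), D.lb_in h, D.rv_in h, Y.rev_rev, D.ss, Y.lab_rev, Y.lab_rev]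
      group
    · rw [D.rv_out h, D.lb_out h, D.lb_out (by rw [Y.rev_rev]; exact a.2), Y.lab_rev]
  f_rev a := by
    show Y.f (Y.src (D.rv a.1)) = D.lb a.1 • Y.f (Y.src a.1)
    by_cases h : Y.src (Y.rev a.1) ∈ D.Z
    · rw [D.rv_in h, D.lb_in h, Y.f_rev (D.σ _), mul_smul, mul_smul, mul_smul, ← Y.f_rev a.1,
        ← D.bead.pos_f _ h, inv_smul_smul, D.bead.pos_f _ (D.sm _ h)]
    · rw [D.rv_out h, D.lb_out h, Y.f_rev]

/-- The surviving dart opposite to `a`. -/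
def op (a : Y.A) (h : Y.src a ∈ D.Z) : D.Y'.A := ⟨Y.rev a, D.out a h⟩

variable {E : Type} [MulAction W E]

open Classical in
noncomputable def wt (c : D.Y'.Coch E) (a : Y.A) (ε : E) : F2 :=
  if a = D.a1 then c (.dart (D.op D.a1 D.h1)) (Y.lab D.a1 • ε) else 0

open Classical in
noncomputable def pull (c : D.Y'.Coch E) : Y.Coch E
  | .edge s x y => fun ε =>
      if h : x ∉ D.Z ∧ y ∉ D.Z then c (.edge s ⟨x, h.1⟩ ⟨y, h.2⟩) ε else 0
  | .dart a => fun ε =>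
      if h : Y.src a ∈ D.Z then D.wt c a ε
      else if Y.src (Y.rev a) ∈ D.Z then D.wt c (Y.rev a) (Y.lab a • ε) else c (.dart ⟨a, h⟩) ε

variable (c : D.Y'.Coch E)

theorem pull_eo (s : S) {x y : Y.Om} (hx : x ∉ D.Z) (hy : y ∉ D.Z) (ε : E) :
    D.pull c (.edge s x y) ε = c (.edge s ⟨x, hx⟩ ⟨y, hy⟩) ε := dif_pos ⟨hx, hy⟩

theorem pull_ei (s : S) {x : Y.Om} (y : Y.Om) (hx : x ∈ D.Z) (ε : E) :
    D.pull c (.edge s x y) ε = 0 := dif_neg fun h => h.1 hx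

theorem pull_di {a : Y.A} (h : Y.src a ∈ D.Z) (ε : E) : D.pull c (.dart a) ε = D.wt c a ε :=
  dif_pos h

theorem pull_de {a : Y.A} (h : Y.src a ∉ D.Z) (k : Y.src (Y.rev a) ∈ D.Z) (ε : E) :
    D.pull c (.dart a) ε = D.wt c (Y.rev a) (Y.lab a • ε) := (dif_neg h).trans (if_pos k)

theorem pull_do {a : Y.A} (h : Y.src a ∉ D.Z) (k : Y.src (Y.rev a) ∉ D.Z) (ε : E) :
    D.pull c (.dart a) ε = c (.dart ⟨a, h⟩) ε := (dif_neg h).trans (if_neg k)

variable {c}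

/-- The value of the joined arc. -/
theorem key (hc : Cocyc c) {b : Y.A} (h : Y.src b ∉ D.Z) (k : Y.src (Y.rev b) ∈ D.Z) (ε : E) :
    D.wt c (Y.rev b) (Y.lab b • ε) + D.wt c (D.σ (Y.rev b))
      ((D.pos (Y.src (D.σ (Y.rev b))) * ((D.pos (Y.src (Y.rev b)))⁻¹ * Y.lab b)) • ε) =
      c (.dart ⟨b, h⟩) ε := by
  unfold wt
  rcases D.two _ _ k D.h1 with e | e
  · have e2 : D.op D.a1 D.h1 = ⟨b, h⟩ := Subtype.ext (by
      show Y.rev D.a1 = b
      rw [e, Y.rev_rev])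
    rw [if_pos e.symm, if_neg (by rw [e]; exact D.sn _ k), add_zero, e2, e, Y.lab_rev,
      inv_smul_smul]
  · have e2 : D.op D.a1 D.h1 = D.Y'.rev ⟨b, h⟩ := Subtype.ext (by
      show Y.rev D.a1 = D.rv b
      rw [D.rv_in k, e])
    have e3 := hc.dsym ⟨b, h⟩ ε
    have e4 : D.Y'.lab ⟨b, h⟩ = _ := D.lb_in k
    rw [if_neg (by rw [e]; exact (D.sn _ k).symm), if_pos e.symm, zero_add, e2, ← e3, e4, e,
      mul_smul (Y.lab _)]

theorem cocyc (hc : Cocyc c) : Cocyc (D.pull c) where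
  symm s x y ε h := by
    by_cases hx : x ∈ D.Z
    · rw [D.pull_ei c s y hx, D.pull_ei c s x (D.bead.shut s x y h hx)]
    · rw [D.pull_eo c s hx (D.e_out h hx), D.pull_eo c s (D.e_out h hx) hx]
      exact hc.symm s ⟨x, hx⟩ ⟨y, D.e_out h hx⟩ ε h
  dsym a ε := by
    by_cases h : Y.src a ∈ D.Z
    · rw [D.pull_di c h, D.pull_de c (D.out a h) (by rwa [Y.rev_rev]), Y.rev_rev, Y.lab_rev,
        inv_smul_smul]
    · by_cases k : Y.src (Y.rev a) ∈ D.Z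
      · rw [D.pull_di c k, D.pull_de c h k]
      · have e3 := hc.dsym ⟨a, h⟩ ε
        have e4 : D.Y'.lab ⟨a, h⟩ = _ := D.lb_out k
        have e2 : D.Y'.rev ⟨a, h⟩ = ⟨Y.rev a, k⟩ := Subtype.ext (D.rv_out k)
        rw [D.pull_do c h k, D.pull_do c k (by rwa [Y.rev_rev]), ← e3, e2, e4]
  sq s t x0 x1 x2 x3 ε h e0 e1 e2 e3 := by
    by_cases h0 : x0 ∈ D.Z
    · have h1 := D.bead.shut _ _ _ e0 h0
      have h2 := D.bead.shut _ _ _ e1 h1
      have h3 := D.bead.shut _ _ _ e2 h2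
      rw [D.pull_ei c s _ h0, D.pull_ei c t _ h1, D.pull_ei c s _ h2, D.pull_ei c t _ h3]
      rfl
    · have h1 := D.e_out e0 h0
      have h2 := D.e_out e1 h1
      have h3 := D.e_out e2 h2
      rw [D.pull_eo c s h0 h1, D.pull_eo c t h1 h2, D.pull_eo c s h2 h3, D.pull_eo c t h3 h0]
      exact hc.sq s t ⟨x0, h0⟩ ⟨x1, h1⟩ ⟨x2, h2⟩ ⟨x3, h3⟩ ε h e0 e1 e2 e3

theorem const {φ : Y.Om → E → F2} (hφ : IsD (D.pull c) φ) {n : ℕ} {x y : Y.Om} (h : Y.Near n x y)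
    (hx : x ∈ D.Z) (δ : E) : φ x (D.pos x • δ) = φ y (D.pos y • δ) := by
  induction h with
  | refl => rfl
  | @step n s x y z he _ ih =>
    have h1 := hφ.ed s x y (D.pos x • δ) he
    rw [D.pull_ei c s y hx, ← mul_smul, ← D.bead.pos_e s x hx y he] at h1
    rw [← ih (D.bead.shut _ _ _ he hx), ← add_zero (φ x _), h1, ← add_assoc, F2_add_self, zero_add]

theorem refl (hc : Cocyc c) (h : Cobd (D.pull c)) : Cobd c := by
  obtain ⟨φ, hφ⟩ := h
  refine ⟨fun x => φ x.1, fun s x y ε h => ?_, fun a ε => ?_⟩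
  · rw [← hφ.ed s x.1 y.1 ε h, D.pull_eo c s x.2 y.2]
    rfl
  · obtain ⟨b, h⟩ := a
    show _ = φ (Y.src b) ε + φ (Y.src (D.rv b)) (D.lb b • ε)
    by_cases k : Y.src (Y.rev b) ∈ D.Z
    · obtain ⟨n, hn⟩ := D.bead.conn _ k _ (D.sm _ k)
      have h1 := D.const hφ hn k (((D.pos (Y.src (Y.rev b)))⁻¹ * Y.lab b) • ε)
      rw [← mul_smul, mul_inv_cancel_left, ← mul_smul] at h1
      rw [← D.key hc h k, ← D.pull_de c h k, ← D.pull_di c (D.sm _ k), hφ.da, hφ.da, h1,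
        D.rv_in k, D.lb_in k, mul_smul (Y.lab _), add_assoc, ← add_assoc (φ (Y.src (D.σ _)) _),
        F2_add_self, zero_add]
    · rw [← D.pull_do c h k, hφ.da, D.rv_out k, D.lb_out k]

theorem h0 (x : D.Y'.Om) (h : Y.H0 o x.1) : D.Y'.H0 o x := by
  classical
  refine ⟨h.1, fun T φ hφ y w hw => ?_⟩
  let ψ : W → T := fun δ =>
    φ (D.Y'.src (D.op D.a1 D.h1)) (Y.lab D.a1 * (D.pos (Y.src D.a1) * δ))
  let φ0 : Y.Om → W → T := fun z v => if k : z ∈ D.Z then ψ ((D.pos z)⁻¹ * v) else φ ⟨z, k⟩ v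
  have pi : ∀ z v, z ∈ D.Z → φ0 z v = ψ ((D.pos z)⁻¹ * v) := fun z v k => dif_pos k
  have po : ∀ z v (k : z ∉ D.Z), φ0 z v = φ ⟨z, k⟩ v := fun z v k => dif_neg k
  have da : ∀ a, Y.src a ∈ D.Z → ∀ v, φ0 (Y.src (Y.rev a)) (Y.lab a * v) = φ0 (Y.src a) v := by
    intro a k v
    rw [pi _ _ k, po _ _ (D.out a k)]
    rcases D.two _ _ k D.h1 with e | e
    · subst e
      simp only [ψ, mul_inv_cancel_left]
      rfl
    · have k' : Y.src (Y.rev (Y.rev a)) ∈ D.Z := by rwa [Y.rev_rev]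
      have e2 : D.Y'.rev (D.op a k) = D.op D.a1 D.h1 := Subtype.ext (by
        show D.rv (Y.rev a) = Y.rev D.a1
        rw [D.rv_in k', Y.rev_rev, e])
      have e4 : D.Y'.lab (D.op a k) = _ := D.lb_in k'
      have e3 := hφ.da (D.op a k) (Y.lab a * v)
      rw [e2, e4] at e3
      simp only [op, Y.rev_rev, ← e, Y.lab_rev, mul_assoc, inv_mul_cancel_left] at e3
      exact e3.symm
  have hl : LocC φ0 := by
    refine ⟨fun s x y v e => ?_, fun a v => ?_⟩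
    · by_cases hx : x ∈ D.Z
      · rw [pi _ _ hx, pi _ _ (D.bead.shut _ _ _ e hx), D.bead.pos_e s x hx y e, mul_inv_rev, g_inv,
          mul_assoc, g_mul_g_mul]
      · rw [po _ _ hx, po _ _ (D.e_out e hx)]
        exact hφ.ed s ⟨x, hx⟩ ⟨y, D.e_out e hx⟩ v e
    · by_cases h1 : Y.src a ∈ D.Z
      · exact da a h1 v
      · by_cases k : Y.src (Y.rev a) ∈ D.Z
        · rw [← da _ k, Y.rev_rev, Y.lab_rev, inv_mul_cancel_left]
        · have e3 := hφ.da ⟨a, h1⟩ v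
          have e4 : D.Y'.lab ⟨a, h1⟩ = _ := D.lb_out k
          have e2 : D.Y'.rev ⟨a, h1⟩ = ⟨Y.rev a, k⟩ := Subtype.ext (D.rv_out k)
          rw [e2, e4] at e3
          rw [po _ _ h1, po _ _ k]
          exact e3
  have := h.2 T φ0 hl y.1 w hw
  rwa [po _ _ y.2, po _ _ x.2] at this

theorem walk {n m : Y.Node} {l : ℕ} {ch : Y.Path} (h : Y.TW tt n m l ch) (hm : m.x ∉ D.Z) :
    (∀ hn : n.x ∉ D.Z, ∃ l' ch', l' ≤ l ∧
      D.Y'.TW tt ⟨⟨n.x, hn⟩, n.w, n.p⟩ ⟨⟨m.x, hm⟩, m.w, m.p⟩ l' ch' ∧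
      ∀ (E : Type) [MulAction W E] (c : D.Y'.Coch E) (ε : E), Cocyc c →
        ev (D.pull c) ch ε = ev c ch' ε) ∧
    (n.x ∈ D.Z → ∀ (b : Y.A) (hb : Y.src b ∉ D.Z) (w0 p0 : W), Y.src (Y.rev b) ∈ D.Z →
      Close w0 p0 → n.w = D.pos n.x * ((D.pos (Y.src (Y.rev b)))⁻¹ * Y.lab b) * w0 →
      ∃ l' ch', l' ≤ d p0 n.p + l ∧
        D.Y'.TW tt ⟨⟨Y.src b, hb⟩, w0, p0⟩ ⟨⟨m.x, hm⟩, m.w, m.p⟩ l' ch' ∧
        ∀ (E : Type) [MulAction W E] (c : D.Y'.Coch E) (ε : E), Cocyc c →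
          D.wt c (Y.rev b) (Y.lab b • w0 • ε) + ev (D.pull c) ch ε = ev c ch' ε) := by
  induction h with
  | nil n a b => exact ⟨fun hn => ⟨0, [], le_rfl, TW.nil _ a trivial, fun _ _ _ _ _ => rfl⟩,
      fun hn => absurd hn hm⟩
  | @edge n n' m l ch s a _ e ew _ ih =>
    refine ⟨fun hn => ?_, fun hn b hb w0 p0 k cl hw => ?_⟩
    · obtain ⟨l', ch', h1, h2, h3⟩ := (ih hm).1 (D.e_out e hn)
      refine ⟨_, _, Nat.add_le_add_left h1 _, TW.edge (Y := D.Y') (n := ⟨⟨n.x, hn⟩, n.w, n.p⟩)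
        (n' := ⟨⟨n'.x, D.e_out e hn⟩, n'.w, n'.p⟩) s a trivial e ew h2, fun E _ c ε hc => ?_⟩
      rw [ev_cons, ev_cons, h3 E c ε hc, D.pull_eo c s hn (D.e_out e hn)]
    · obtain ⟨l', ch', h1, h2, h3⟩ := (ih hm).2 (D.bead.shut _ _ _ e hn) b hb w0 p0 k cl (by
        rw [ew, hw, D.bead.pos_e s _ hn _ e]
        simp only [mul_assoc])
      have := d_triangle p0 n.p n'.p
      refine ⟨l', ch', by omega, h2, fun E _ c ε hc => ?_⟩
      rw [ev_cons, D.pull_ei c s _ hn, zero_add, h3 E c ε hc]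
  | @dart n n' m l ch a cl0 _ e1 e2 ew _ ih =>
    refine ⟨fun hn => ?_, fun hn b hb w0 p0 k cl hw => ?_⟩
    · have ha : Y.src a ∉ D.Z := e1 ▸ hn
      by_cases k : Y.src (Y.rev a) ∈ D.Z
      · obtain ⟨l', ch', h1, h2, h3⟩ := (ih hm).2 (e2 ▸ k) a ha n.w n.p k cl0 (by
          rw [ew, e2, mul_inv_cancel_left])
        have e3 : (⟨Y.src a, ha⟩ : D.Y'.Om) = ⟨n.x, hn⟩ := Subtype.ext e1.symm
        rw [e3] at h2
        refine ⟨l', ch', h1, h2, fun E _ c ε hc => ?_⟩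
        rw [ev_cons, D.pull_de c ha k, h3 E c ε hc]
      · obtain ⟨l', ch', h1, h2, h3⟩ := (ih hm).1 (e2 ▸ k)
        refine ⟨_, _, Nat.add_le_add_left h1 _, TW.dart (Y := D.Y') (n := ⟨⟨n.x, hn⟩, n.w, n.p⟩)
          ⟨a, ha⟩ cl0 trivial (Subtype.ext e1) (Subtype.ext (e2.trans ?_)) (ew.trans ?_) h2,
          fun E _ c ε hc => ?_⟩
        · exact congrArg Y.src (D.rv_out k).symm
        · exact congrArg (· * n.w) (D.lb_out k).symm
        · rw [ev_cons, ev_cons, h3 E c ε hc, D.pull_do c ha k]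
    · have ha : Y.src a ∈ D.Z := e1 ▸ hn
      have hn' : n'.x ∉ D.Z := e2 ▸ D.out a ha
      obtain ⟨l', ch', h1, h2, h3⟩ := (ih hm).1 hn'
      have := d_triangle p0 n.p n'.p
      rcases D.two _ _ k ha with e | e
      · have hw' : n.w = Y.lab b * w0 := by rw [hw, e1, e, mul_inv_cancel_left]
        refine ⟨_, ch', ?_, TW.stay (Y := D.Y') (n := ⟨⟨Y.src b, hb⟩, w0, p0⟩) cl trivial
          (Subtype.ext (e2.trans ?_)) (ew.trans ?_) h2, fun E _ c ε hc => ?_⟩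
        · show d p0 n'.p + l' ≤ _
          omega
        · rw [e, Y.rev_rev]
        · rw [hw', e, Y.lab_rev, inv_mul_cancel_left]
        · rw [ev_cons, D.pull_di c ha, hw', e, mul_smul, ← add_assoc, F2_add_self, zero_add,
            h3 E c ε hc]
      · refine ⟨_, _, ?_, TW.dart (Y := D.Y') (n := ⟨⟨Y.src b, hb⟩, w0, p0⟩) ⟨b, hb⟩ cl trivial rfl
          (Subtype.ext (e2.trans ?_)) (ew.trans ?_) h2, fun E _ c ε hc => ?_⟩
        · show d p0 n'.p + l' ≤ _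
          omega
        · show _ = Y.src (D.rv b)
          rw [D.rv_in k, e]
        · show _ = D.lb b * w0
          rw [D.lb_in k, hw, e1, e]
          simp only [mul_assoc]
        · rw [ev_cons, ev_cons, D.pull_di c ha, ← h3 E c ε hc, ← D.key hc hb k, hw, e1, e,
            ← add_assoc, mul_smul _ w0]
  | @stay n n' m l ch a _ e ew _ ih =>
    refine ⟨fun hn => ?_, fun hn b hb w0 p0 k cl hw => ?_⟩
    · obtain ⟨l', ch', h1, h2, h3⟩ := (ih hm).1 (e ▸ hn)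
      exact ⟨_, _, Nat.add_le_add_left h1 _, TW.stay (Y := D.Y') (n := ⟨⟨n.x, hn⟩, n.w, n.p⟩) a
        trivial (Subtype.ext e) ew h2, h3⟩
    · obtain ⟨l', ch', h1, h2, h3⟩ := (ih hm).2 (e ▸ hn) b hb w0 p0 k cl (by rw [ew, hw, e])
      have := d_triangle p0 n.p n'.p
      exact ⟨l', ch', by omega, h2, h3⟩

/-- The move. -/
noncomputable def move : Move o Y D.Y' where
  K x x' := x'.1 = x
  pull _ _ c := D.pull c
  K_f := by rintro x x' rfl; rfl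
  cocyc _ _ _ hc := D.cocyc hc
  refl _ _ _ hc h := D.refl hc h
  trans := by
    rintro ⟨x, w, p⟩ ⟨y, w', p'⟩ x' y' l ch rfl rfl h
    exact (D.walk h y'.2).1 x'.2
  h0 := by rintro x x' rfl h; exact D.h0 x' h

theorem area : D.Y'.area + Y.nF D.Z ≤ Y.area := by
  have hi : Function.Injective fun p : D.Y'.Om × S => (p.1.1, p.2) := fun p q h =>
    Prod.ext (Subtype.ext (congrArg Prod.fst h)) (congrArg (fun r : Y.Om × S => r.2) h)
  unfold PS.area PS.nF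
  rw [← Set.ncard_image_of_injective _ hi, ← Set.ncard_union_eq]
  · refine Set.ncard_le_ncard ?_
    rintro _ (⟨p, hp, rfl⟩ | hp)
    · exact fun ⟨y, e⟩ => hp ⟨⟨y, D.e_out e p.1.2⟩, e⟩
    · exact hp.2
  · rw [Set.disjoint_left]
    rintro _ ⟨p, _, rfl⟩ hq
    exact p.1.2 hq.1

end Dat

end M2A

theorem m2 : M2S := by
  classical
  intro B _ o Y Z pos x0 a1 a2 hY hZ hx hne hrev h
  have r1 : Y.src (Y.rev a1) ∉ Z := fun k => ((h _).1 k).elim (Y.rev_ne a1) hrev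
  have r2 : Y.src (Y.rev a2) ∉ Z := fun k => ((h _).1 k).elim
    (fun e => hrev (by rw [← e, Y.rev_rev])) (Y.rev_ne a2)
  let D : M2A.Dat o Y :=
    { Z := Z, pos := pos, σ := Equiv.swap a1 a2, a1 := a1, bead := hZ
      h1 := (h _).2 (Or.inl rfl)
      ss := Equiv.swap_apply_self a1 a2
      sm := fun a k => (h _).2 (by rcases (h a).1 k with rfl | rfl <;> simp)
      sn := fun a k => by
        rcases (h a).1 k with rfl | rfl
        · rw [Equiv.swap_apply_left]; exact hne.symm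
        · rw [Equiv.swap_apply_right]; exact hne
      out := fun a k => by rcases (h a).1 k with rfl | rfl <;> assumption
      two := fun a a' k k' => by
        rcases (h a).1 k with rfl | rfl <;> rcases (h a').1 k' with rfl | rfl <;> simp }
  refine ⟨D.Y', D.move, ⟨x0, hx⟩, rfl, ⟨fun e e' => Subtype.ext (hY.fold e e'),
    fun a e0 e1 e2 => hY.close a e0 e1 e2⟩, ?_, D.area⟩
  exact Nat.card_le_card_of_injective _ Subtype.val_injective

end Pool.Agent.MP_df844f_gt.RA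

end
end MrgPart3

-- ======== part 4: formerly Pool.Agent.MP_df844f_gt.RA.s3.Cap
section MrgPart4

/-! Capping off the boundary of a small connected set of free sides. -/

set_option linter.unusedSectionVars false

noncomputable section

namespace Pool.Agent.MP_df844f_gt.RA

variable [Dat]

open PS

namespace CapA

/-- A generator or the identity. -/
def pw : Bool → S → W
  | true, s => g s
  | false, _ => 1

theorem len_pw (a : Bool) (s : S) : len (pw a s) ≤ 1 := by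
  cases a
  · exact len_one.le.trans (Nat.zero_le _)
  · exact (len_g s).le

theorem g_pw (a : Bool) (s : S) : g s * pw a s = pw (!a) s := by
  cases a
  · exact mul_one _
  · exact g_mul_self s

theorem g_pw_comm {s t : S} (h : adj s t) (a : Bool) : g s * pw a t = pw a t * g s := by
  cases a
  · exact (mul_one _).trans (one_mul _).symm
  · exact g_comm h

/-- Words of length at most three. -/
noncomputable def Γ : Finset W :=
  Finset.univ.image fun p : (Bool × S) × (Bool × S) × (Bool × S) =>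
    pw p.1.1 p.1.2 * (pw p.2.1.1 p.2.1.2 * pw p.2.2.1 p.2.2.2)

theorem card_Γ : Γ.card ≤ 2 * nS * (2 * nS * (2 * nS)) := by
  refine Finset.card_image_le.trans ?_
  simp [card_S]

theorem len_Γ {γ : W} (h : γ ∈ Γ) : len γ ≤ 3 := by
  obtain ⟨p, -, rfl⟩ := Finset.mem_image.1 h
  have h1 := len_mul_le (pw p.1.1 p.1.2) (pw p.2.1.1 p.2.1.2 * pw p.2.2.1 p.2.2.2)
  have h2 := len_mul_le (pw p.2.1.1 p.2.1.2) (pw p.2.2.1 p.2.2.2)
  have h3 := len_pw p.1.1 p.1.2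
  have h4 := len_pw p.2.1.1 p.2.1.2
  have h5 := len_pw p.2.2.1 p.2.2.2
  omega

variable {B B' : Type} [MulAction W B] [MulAction W B'] {Y : PS B}

theorem orbit {s t u : S} (h1 : adj s t) (h2 : adj s u) (h3 : adj t u) {x y : Y.Om}
    (h : Y.cell x (insert u {s, t}) = Y.cell y (insert u {s, t})) :
    ∃ γ ∈ Γ, Y.f y = γ • Y.f x := by
  have key : ∃ a b c, Y.f y = (pw a u * (pw b s * pw c t)) • Y.f x := by
    have k := (cell_eq_iff.1 h).2
    clear h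
    induction k with
    | refl => exact ⟨false, false, false, by simp [pw]⟩
    | tail _ k ih =>
      obtain ⟨a, b, c, ih⟩ := ih
      obtain ⟨v, hv, k⟩ := k
      rw [Y.e_f k, ih, smul_smul]
      simp only [Finset.mem_insert, Finset.mem_singleton] at hv
      rcases hv with rfl | rfl | rfl
      · exact ⟨!a, b, c, by rw [← mul_assoc, g_pw]⟩
      · exact ⟨a, !b, c, by
          rw [← mul_assoc, g_pw_comm h2, mul_assoc, ← mul_assoc (g v), g_pw]⟩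
      · exact ⟨a, b, !c, by
          rw [← mul_assoc, g_pw_comm h3, mul_assoc, ← mul_assoc (g v), g_pw_comm (adj_symm h1),
            mul_assoc, g_pw]⟩
  obtain ⟨a, b, c, k⟩ := key
  exact ⟨_, Finset.mem_image.2 ⟨((a, u), (b, s), (c, t)), Finset.mem_univ _, rfl⟩, k⟩

/-- The walls that touch a finite set of chambers. -/
noncomputable def walls (T : Finset W) : Finset W :=
  (T ×ˢ (Finset.univ : Finset S)).image fun p => wall p.2 p.1

theorem sep_step {T : Finset W} {b x : W} (hx : x ∈ T) (h : Sep b x ⊆ walls T) (s : S) :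
    Sep b (g s * x) ⊆ walls T := by
  intro r hr
  by_cases a : r = wall s x
  · exact Finset.mem_image.2 ⟨(x, s), Finset.mem_product.2 ⟨hx, Finset.mem_univ _⟩, a.symm⟩
  · rw [mem_Sep_step] at hr
    exact h (by tauto)

theorem card_sepW {T F : Finset W} {b : W} (h : ∀ a ∈ F, Sep b a ⊆ walls T) :
    (sepW F).card ≤ nS * T.card := by
  have h1 : sepW F ⊆ walls T := by
    intro r hr
    obtain ⟨a, ha, hr⟩ := Finset.mem_biUnion.1 hr
    obtain ⟨a', ha', hr⟩ := Finset.mem_biUnion.1 hr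
    by_cases k : r ∈ Sep b a
    · exact h a ha k
    · refine h a' ha' ?_
      rw [mem_Sep] at *
      tauto
  refine (Finset.card_le_card h1).trans (Finset.card_image_le.trans ?_)
  simp [mul_comm, card_S]

theorem near_cvx {K : Finset W} (hK : Cvx (K : Set W)) (a b : (cvxPS K).Om) :
    (cvxPS K).Near K.card a b := by
  have key : ∀ (n : ℕ) (a : K), d b.1 a.1 = n →
      Relation.ReflTransGen (fun x y : K => ∃ s, (cvxPS K).e s x y) a b := by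
    intro n
    induction n with
    | zero =>
      intro a h
      rw [Subtype.ext (d_eq_zero.1 h).symm (a2 := b)]
    | succ n ih =>
      intro a h
      obtain ⟨s, hs⟩ := exists_desc (b := b.1) (x := a.1) (fun k => by
        rw [k, d_self] at h; omega)
      have h1 := hs.d_eq
      have h2 := ih ⟨g s * a.1, hK _ b.2 _ a.2 _ hs.btw⟩ (by
        show d b.1 (g s * a.1) = n
        omega)
      refine Relation.ReflTransGen.head ?_ h2
      exact ⟨s, rfl⟩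
  have h1 := rn_of_reflTransGen (Finset.univ : Finset K) (fun _ _ _ => Finset.mem_univ _)
    (key _ a rfl)
  have h2 := near_of_rn (Y := cvxPS K) (k := 1) (fun _ _ h => by
    obtain ⟨s, h⟩ := h
    exact Near.single h) h1
  simpa using h2

/-- Transport of chains from a set of chambers along a map defined on that set. -/
theorem piece (Q : PS B') (C : Set Y.Om) (pk : Y.Om → Q.Om)
    (hE : ∀ s x y, x ∈ C → y ∈ C → Y.e s x y → Q.e s (pk x) (pk y)) :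
    ∃ L : Y.Chain →ₗ[F2] Q.Chain, ∀ x J, (∀ y, Y.cell y J = Y.cell x J → (y ∈ C ↔ x ∈ C)) →
      ∀ a, (x ∈ C → L (Finsupp.single (Y.cell x J) a) = Finsupp.single (Q.cell (pk x) J) a) ∧
        (x ∉ C → L (Finsupp.single (Y.cell x J) a) = 0) := by
  classical
  refine ⟨Finsupp.linearCombination F2 fun c =>
    if h : ∃ q : Y.Om × Finset S, q.1 ∈ C ∧ c = Y.cell q.1 q.2 then
      Finsupp.single (Q.cell (pk h.choose.1) h.choose.2) 1 else 0, fun x J hx a => ⟨?_, ?_⟩⟩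
  · intro hC
    have h : ∃ q : Y.Om × Finset S, q.1 ∈ C ∧ Y.cell x J = Y.cell q.1 q.2 := ⟨(x, J), hC, rfl⟩
    rw [Finsupp.linearCombination_single, dif_pos h, Finsupp.smul_single, smul_eq_mul, mul_one]
    obtain ⟨h1, h2⟩ := cell_eq_iff.1 h.choose_spec.2
    rw [← h1]
    have key : ∀ y, Relation.ReflTransGen (Y.JE J) x y → Q.cell (pk y) J = Q.cell (pk x) J := by
      intro y k
      induction k with
      | refl => rfl
      | @tail y z k1 k2 ih =>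
        have a1 : Y.cell y J = Y.cell x J := (cell_eq_iff.2 ⟨rfl, k1⟩).symm
        have a2 : Y.cell z J = Y.cell x J := (cell_eq_iff.2 ⟨rfl, k1.tail k2⟩).symm
        obtain ⟨s, hs, k2⟩ := k2
        exact (cell_e hs (hE s y z ((hx y a1).2 hC) ((hx z a2).2 hC) k2)).symm.trans ih
    rw [key _ h2]
  · intro hC
    rw [Finsupp.linearCombination_single, dif_neg, smul_zero]
    rintro ⟨q, h1, h2⟩
    have h3 := (cell_eq_iff.1 h2).1
    rw [← h3] at h2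
    exact hC ((hx _ h2.symm).1 h1)

theorem ext_supp {M : Type} [AddCommGroup M] [Module F2 M] (β : Y.Chain)
    (A A' : Y.Chain →ₗ[F2] M)
    (h : ∀ c ∈ β.support, ∀ a, A (Finsupp.single c a) = A' (Finsupp.single c a)) :
    A β = A' β := by
  rw [← β.sum_single, map_finsuppSum, map_finsuppSum]
  exact Finsupp.sum_congr fun c hc => h c hc _

theorem supp_sum {Q : PS B'} {ι : Type} (T : Finset ι) (u : ι → Q.Chain) {c : Q.Cell}
    (h : c ∈ (∑ i ∈ T, u i).support) : ∃ i ∈ T, c ∈ (u i).support := by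
  by_contra k
  push Not at k
  refine Finsupp.mem_support_iff.1 h ?_
  rw [Finsupp.finsetSum_apply]
  exact Finset.sum_eq_zero fun i hi => Finsupp.notMem_support_iff.1 (k i hi)

theorem supp_lin {Q : PS B'} (β : Y.Chain) (A : Y.Chain →ₗ[F2] Q.Chain) {c : Q.Cell}
    (h : c ∈ (A β).support) : ∃ c' ∈ β.support, ∃ a, c ∈ (A (Finsupp.single c' a)).support := by
  rw [← β.sum_single, map_finsuppSum] at h
  obtain ⟨c', h1, h2⟩ := supp_sum _ _ h
  exact ⟨c', h1, _, h2⟩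

theorem supp_single {Q : PS B'} {c c' : Q.Cell} {a : F2}
    (h : c ∈ (Finsupp.single c' a : Q.Chain).support) : c = c' :=
  Finset.mem_singleton.1 (Finsupp.support_single_subset h)

theorem supp_bd (D : Finset (Y.Om × S)) {c : Y.Cell} (h : c ∈ (Y.bd (Y.ch1 D)).support) :
    ∃ p ∈ D, ∃ t, adj p.2 t ∧ c = Y.cell p.1 {p.2, t} := by
  rw [bd_ch1] at h
  obtain ⟨p, hp, h⟩ := supp_sum _ _ h
  obtain ⟨t, ht, h⟩ := supp_sum _ _ h
  exact ⟨p, hp, t, (Finset.mem_filter.1 ht).2, supp_single h⟩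

theorem card_face {K : Finset W} (E : (cvxPS K).Chain)
    (h : ∀ c ∈ E.support, ∃ x s, c = (cvxPS K).cell x {s}) : E.support.card ≤ nS * K.card := by
  have h1 : E.support ⊆ (Finset.univ : Finset (K × S)).image
      fun p => (cvxPS K).cell p.1 {p.2} := by
    intro c hc
    obtain ⟨x, s, rfl⟩ := h c hc
    exact Finset.mem_image.2 ⟨(x, s), Finset.mem_univ _, rfl⟩
  refine (Finset.card_le_card h1).trans (Finset.card_image_le.trans ?_)
  simp [mul_comm, card_S]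

theorem chain_add_self {Q : PS B'} (u : Q.Chain) : u + u = 0 := by
  ext c
  exact F2_add_self _

/-- The chambers around the end points of the cells of a chain. -/
def ZZ (β : Y.Chain) : Set Y.Om :=
  {y | ∃ x J u, Y.cell x J ∈ β.support ∧ (∀ s ∈ J, adj s u) ∧
    Y.cell y (insert u J) = Y.cell x (insert u J)}

/-- Thick paths inside `Z`. -/
def sd (Z : Set Y.Om) : Setoid Y.Om where
  r := Relation.ReflTransGen fun a b => a ∈ Z ∧ b ∈ Z ∧ ∃ s, Y.e s a b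
  iseqv := ⟨fun _ => .refl, fun h => by
    induction h with
    | refl => exact .refl
    | tail _ k ih =>
      obtain ⟨h1, h2, s, h3⟩ := k
      exact .head ⟨h2, h1, s, Y.e_symm h3⟩ ih, fun h k => h.trans k⟩

theorem sd_of_cell {Z : Set Y.Om} {x y : Y.Om} {J : Finset S}
    (hZ : ∀ z, Y.cell z J = Y.cell x J → z ∈ Z) (h : Y.cell y J = Y.cell x J) : (sd Z).r x y := by
  have k := (cell_eq_iff.1 h.symm).2
  clear h
  induction k with
  | refl => exact .refl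
  | @tail y z k1 k2 ih =>
    have a1 : Y.cell y J = Y.cell x J := (cell_eq_iff.2 ⟨rfl, k1⟩).symm
    have a2 : Y.cell z J = Y.cell x J := (cell_eq_iff.2 ⟨rfl, k1.tail k2⟩).symm
    obtain ⟨s, -, k2⟩ := k2
    exact Relation.ReflTransGen.tail ih ⟨hZ y a1, hZ z a2, s, k2⟩

/-- Representatives of the support cells and positions of the chambers around them. -/
theorem data (hF : FactS) {o : B} (hT : Trans o) {m0 : ℕ} (hTh : Thick o (4 * m0 + 7))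
    (hY : Y.State) {D : Finset (Y.Om × S)} (hD : Y.BConn D) {p0 : Y.Om × S} (hp0 : p0 ∈ D)
    (hm : D.card ≤ m0) (β : Y.Chain) (hβ : β = Y.bd (Y.ch1 D)) :
    ∃ (rep : Y.Cell → Y.Om) (pos : Y.Om → W),
      (∀ c ∈ β.support, Y.Near (2 * m0) p0.1 (rep c) ∧ ∃ s t, adj s t ∧
        c = Y.cell (rep c) {s, t} ∧ ∀ y, Y.cell y {s, t} = c → y ∈ ZZ β) ∧
      (∀ y ∈ ZZ β, pos y • o = Y.f y) ∧
      (∀ s, ∀ x ∈ ZZ β, ∀ y ∈ ZZ β, Y.e s x y → pos y = g s * pos x) ∧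
      ∀ y ∈ ZZ β, ∃ c ∈ β.support, (sd (ZZ β)).r (rep c) y ∧ ∃ γ ∈ Γ, pos y = γ * pos (rep c) := by
  classical
  obtain ⟨w0, hw0⟩ := hT (Y.f p0.1)
  have h1 : ∀ c, ∃ x, c ∈ β.support → Y.Near (2 * m0) p0.1 x ∧ ∃ s t, adj s t ∧
      c = Y.cell x {s, t} ∧ ∀ y, Y.cell y {s, t} = c → y ∈ ZZ β := by
    intro c
    by_cases hc : c ∈ β.support
    · obtain ⟨p, hp, t, ht, rfl⟩ := supp_bd D (hβ ▸ hc)
      refine ⟨p.1, fun _ => ⟨(hY.bconn_near hD hp0 hp).mono (by omega), p.2, t, ht, rfl,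
        fun y hy => ?_⟩⟩
      obtain ⟨u, v, -, k⟩ := hF.two p.2 t ht
      have k1 := (k u).2 (Or.inl rfl)
      refine ⟨p.1, _, u, hc, fun s hs => ?_, cell_mono hy (Finset.subset_insert _ _)⟩
      rcases Finset.mem_insert.1 hs with rfl | hs
      · exact k1.1
      · exact Finset.mem_singleton.1 hs ▸ k1.2
    · exact ⟨p0.1, fun k => absurd k hc⟩
  choose rep hrep using h1
  have h2 : ∀ y ∈ ZZ β, ∃ c ∈ β.support, (sd (ZZ β)).r (rep c) y ∧
      ∃ γ ∈ Γ, Y.f y = γ • Y.f (rep c) := by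
    rintro y ⟨x, J, u, a1, a2, a3⟩
    obtain ⟨-, s, t, b1, b2, -⟩ := hrep _ a1
    obtain rfl := (cell_eq_iff.1 b2).1
    have b3 := a3.trans (cell_mono b2 (Finset.subset_insert u _))
    refine ⟨_, a1, sd_of_cell (fun z hz => ⟨x, _, u, a1, a2, ?_⟩) b3,
      orbit b1 (a2 s (by simp)) (a2 t (by simp)) b3.symm⟩
    exact hz.trans (cell_mono b2 (Finset.subset_insert u _)).symm
  have h3 : ∀ y, ∃ w, y ∈ ZZ β → w • o = Y.f y ∧ d w0 w ≤ 2 * m0 + 3 := by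
    intro y
    by_cases hy : y ∈ ZZ β
    · obtain ⟨c, hc, -, γ, a1, a2⟩ := h2 y hy
      obtain ⟨w, b1, b2⟩ := (hrep c hc).1.lift hw0
      refine ⟨γ * w, fun _ => ⟨by rw [mul_smul, b1, a2], ?_⟩⟩
      have := d_triangle w0 w (γ * w)
      have := d_mul_left γ w
      have := len_Γ a1
      omega
    · exact ⟨1, fun k => absurd k hy⟩
  choose pos hpos using h3
  have h4 : ∀ y ∈ ZZ β, ∀ w, w • o = Y.f y → d w0 w ≤ 2 * m0 + 4 → pos y = w := by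
    intro y hy w a1 a2
    refine hTh _ _ ((hpos y hy).1.trans a1.symm) ?_
    have := d_triangle (pos y) w0 w
    have := d_comm (pos y) w0
    have := (hpos y hy).2
    omega
  refine ⟨rep, pos, hrep, fun y hy => (hpos y hy).1, fun s x hx y hy h => ?_, fun y hy => ?_⟩
  · refine h4 y hy _ (by rw [mul_smul, (hpos x hx).1, Y.e_f h]) ?_
    have := d_triangle w0 (pos x) (g s * pos x)
    have := d_g_mul s (pos x)
    have := (hpos x hx).2
    omega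
  · obtain ⟨c, hc, a0, γ, a1, a2⟩ := h2 y hy
    obtain ⟨b0, s, t, -, b3, b4⟩ := hrep c hc
    obtain ⟨w, b1, b2⟩ := b0.lift hw0
    refine ⟨c, hc, a0, γ, a1, ?_⟩
    rw [h4 _ (b4 _ b3.symm) w b1 (by omega)]
    refine h4 y hy _ (by rw [mul_smul, b1, a2]) ?_
    have := d_triangle w0 w (γ * w)
    have := d_mul_left γ w
    have := len_Γ a1
    omega

/-- The convex set attached to one component. -/
theorem exists_K (hu : HullS) {Z : Set Y.Om} {pos : Y.Om → W}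
    (hE : ∀ s, ∀ x ∈ Z, ∀ y ∈ Z, Y.e s x y → pos y = g s * pos x) {z : Y.Om} (hz : z ∈ Z)
    (T : Finset W) (hT : ∀ x ∈ Z, (sd Z).r z x → pos x ∈ T)
    (hT' : ∀ a ∈ T, ∃ x, (sd Z).r z x ∧ pos x = a) :
    ∃ K : Finset W, Cvx (K : Set W) ∧ T ⊆ K ∧ g 0 * pos z ∈ K ∧
      K.card ≤ 1 + (nS + 1) ^ 6 * (nS * T.card) := by
  obtain ⟨K, h1, h2⟩ := hu (insert (g 0 * pos z) T) (Finset.insert_nonempty _ _)
  have h3 : insert (g 0 * pos z) T ⊆ K := by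
    rw [← Finset.coe_subset, h1]
    exact subset_hull _
  have h4 : ∀ x, (sd Z).r z x → Sep (pos z) (pos x) ⊆ walls T := by
    intro x k
    induction k with
    | refl => rw [Sep_self]; exact Finset.empty_subset _
    | tail k1 k2 ih =>
      obtain ⟨a1, a2, s, a3⟩ := k2
      rw [hE s _ a1 _ a2 a3]
      exact sep_step (hT _ a1 k1) ih s
  refine ⟨K, h1 ▸ cvx_hull _, (Finset.subset_insert _ _).trans h3,
    h3 (Finset.mem_insert_self _ _), h2.trans ?_⟩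
  have h5 : (sepW (insert (g 0 * pos z) T)).card ≤ nS * T.card := by
    refine card_sepW (b := pos z) fun a ha => ?_
    rcases Finset.mem_insert.1 ha with rfl | ha
    · exact sep_step (hT z hz .refl) (h4 z .refl) 0
    · obtain ⟨x, a1, rfl⟩ := hT' a ha
      exact h4 x a1
  exact Nat.add_le_add_left (Nat.mul_le_mul_left _ h5) _

end CapA

open CapA in
theorem cap (hF : FactS) (we : Wedge2S) (cl : ClosS) (hu : HullS) (fi : FillS) : Cap2S := by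
  classical
  refine ⟨1 + (nS + 1) ^ 6 * (nS * (2 * nS * (2 * nS * (2 * nS)))), fun m0 => ⟨4 * m0 + 7, ?_⟩⟩
  intro B _ o hT hTh Y D p0 hY hD hp0 hm
  obtain ⟨β, hβ⟩ : ∃ β, β = Y.bd (Y.ch1 D) := ⟨_, rfl⟩
  obtain ⟨rep, pos, hrep, hpf, hpe, hZ⟩ := data hF hT hTh hY hD hp0 hm β hβ
  rw [← hβ]
  obtain ⟨Z, hZd⟩ : ∃ Z, Z = ZZ β := ⟨_, rfl⟩
  have hZ3 : ∀ x J u y, Y.cell x J ∈ β.support → (∀ s ∈ J, adj s u) →
      Y.cell y (insert u J) = Y.cell x (insert u J) → y ∈ Z :=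
    fun x J u y a1 a2 a3 => hZd ▸ ⟨x, J, u, a1, a2, a3⟩
  rw [← hZd] at hrep hpf hpe hZ
  clear hZd
  have hrZ : ∀ c ∈ β.support, rep c ∈ Z := fun c hc => by
    obtain ⟨-, s, t, -, b3, b4⟩ := hrep c hc
    exact b4 _ b3.symm
  let J := {q : Quotient (sd Z) // ∃ x ∈ Z, Quotient.mk (sd Z) x = q}
  let _ : Fintype J := Fintype.ofFinite J
  let C : J → Set Y.Om := fun j => {x | x ∈ Z ∧ Quotient.mk (sd Z) x = j.1}
  let sup : J → Finset Y.Cell := fun j => β.support.filter fun c => rep c ∈ C j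
  have hsup : ∀ j, ∀ y ∈ C j, ∃ c ∈ sup j, ∃ γ ∈ Γ, pos y = γ * pos (rep c) := by
    intro j y hy
    obtain ⟨c, hc, a1, a2⟩ := hZ y hy.1
    exact ⟨c, Finset.mem_filter.2 ⟨hc, hrZ c hc, (Quotient.sound a1).trans hy.2⟩, a2⟩
  have hne : ∀ j, ∃ c, c ∈ sup j := fun j => by
    obtain ⟨x, a1, a2⟩ := j.2
    obtain ⟨c, hc, -⟩ := hsup j x ⟨a1, a2⟩
    exact ⟨c, hc⟩
  choose c0 hc0 using hne
  have hz : ∀ j, rep (c0 j) ∈ C j := fun j => (Finset.mem_filter.1 (hc0 j)).2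
  have hK : ∀ j, ∃ K : Finset W, Cvx (K : Set W) ∧ (∀ x ∈ C j, pos x ∈ K) ∧
      g 0 * pos (rep (c0 j)) ∈ K ∧ K.card ≤
        (1 + (nS + 1) ^ 6 * (nS * (2 * nS * (2 * nS * (2 * nS))))) * (sup j).card := by
    intro j
    have hm : ∀ x ∈ C j, pos x ∈ (Set.toFinite (C j)).toFinset.image pos := fun x hx =>
      Finset.mem_image_of_mem _ ((Set.Finite.mem_toFinset _).2 hx)
    obtain ⟨K, a1, a2, a3, a4⟩ := exists_K hu hpe (hz j).1
      ((Set.toFinite (C j)).toFinset.image pos)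
      (fun x b1 b2 => hm x ⟨b1, (Quotient.sound b2).symm.trans (hz j).2⟩) (fun a ha => by
        obtain ⟨x, b1, b2⟩ := Finset.mem_image.1 ha
        exact ⟨x, Quotient.exact ((hz j).2.trans ((Set.Finite.mem_toFinset _).1 b1).2.symm), b2⟩)
    refine ⟨K, a1, fun x hx => a2 (hm x hx), a3, a4.trans ?_⟩
    have b1 : (Set.toFinite (C j)).toFinset.image pos ⊆
        (sup j).biUnion fun c => Γ.image fun γ => γ * pos (rep c) := by
      intro a ha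
      obtain ⟨x, b1, rfl⟩ := Finset.mem_image.1 ha
      obtain ⟨c, hc, γ, b2, b3⟩ := hsup j x ((Set.Finite.mem_toFinset _).1 b1)
      exact Finset.mem_biUnion.2 ⟨c, hc, Finset.mem_image.2 ⟨γ, b2, b3.symm⟩⟩
    have b2 := (Finset.card_le_card b1).trans (Finset.card_biUnion_le_card_mul _ _ _
      fun c _ => Finset.card_image_le.trans card_Γ)
    have b3 : 0 < (sup j).card := Finset.card_pos.2 ⟨_, hc0 j⟩
    rw [add_mul, one_mul]
    refine Nat.add_le_add b3 ((Nat.mul_le_mul_left _ (Nat.mul_le_mul_left _ b2)).trans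
      (le_of_eq ?_))
    ring
  choose K hK1 hK2 hK3 hK4 using hK
  obtain ⟨Y1, φ, ι, g1, c1, n1, -, e1⟩ := we B o Y J (fun j => rep (c0 j))
    (fun j => pos (rep (c0 j))) K 0 (fun j => hpf _ (hz j).1) hK1 (fun j => hK2 j _ (hz j)) hK3
  obtain ⟨Y2, ψ, s2, g2, c2, n2⟩ := cl B Y1
  let pk : ∀ j, Y.Om → (cvxPS (K j)).Om := fun j x =>
    if h : pos x ∈ K j then ⟨pos x, h⟩ else ⟨_, hK3 j⟩
  have hpk : ∀ j, ∀ x ∈ C j, (pk j x).1 = pos x := fun j x hx => by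
    simp only [pk, dif_pos (hK2 j x hx)]
  have hpkE : ∀ j s x y, x ∈ C j → y ∈ C j → Y.e s x y →
      (cvxPS (K j)).e s (pk j x) (pk j y) := fun j s x y hx hy h => by
    show (pk j y).1 = g s * (pk j x).1
    rw [hpk j x hx, hpk j y hy, hpe s x hx.1 y hy.1 h]
  let ι' : ∀ j, EHom (cvxPS (K j)) Y2 := fun j => (ι j).comp ψ.toEHom
  have hπ : ∀ j, ∀ x ∈ C j, (φ.comp ψ).π x = (ι' j).π (pk j x) := by
    intro j x hx
    have k : (sd Z).r (rep (c0 j)) x := Quotient.exact ((hz j).2.trans hx.2.symm)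
    induction k with
    | refl =>
      refine s2.fold (Y2.e_symm (ψ.e_π (e1 j))) ((ι' j).e_π ?_)
      show (pk j _).1 = g 0 * (g 0 * pos (rep (c0 j)))
      rw [hpk j _ hx, g_mul_g_mul]
    | @tail x y k1 k2 ih =>
      obtain ⟨a1, -, s, a3⟩ := k2
      have hx' : x ∈ C j := ⟨a1, (Quotient.sound k1).symm.trans (hz j).2⟩
      exact s2.fold (ih hx' ▸ (φ.comp ψ).e_π a3) ((ι' j).e_π (hpkE j s x y hx' hx a3))
  choose L hL using fun j => piece (cvxPS (K j)) (C j) (pk j) (hpkE j)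
  have hgood : ∀ j x J', (∀ y, Y.cell y J' = Y.cell x J' → y ∈ Z) →
      ∀ y, Y.cell y J' = Y.cell x J' → (y ∈ C j ↔ x ∈ C j) := by
    intro j x J' h y hy
    have k : Quotient.mk (sd Z) x = Quotient.mk (sd Z) y := Quotient.sound (sd_of_cell h hy)
    exact ⟨fun a => ⟨h x rfl, k.trans a.2⟩, fun a => ⟨h y hy, k.symm.trans a.2⟩⟩
  have hcyc : ∀ j, (cvxPS (K j)).bd (L j β) = 0 := by
    intro j
    have h0 : L j (Y.bd β) = 0 := by rw [hβ, bd_bd, map_zero]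
    rw [← h0]
    refine ext_supp β ((cvxPS (K j)).bd ∘ₗ L j) (L j ∘ₗ Y.bd) fun c hc a => ?_
    obtain ⟨-, s, t, -, b3, b4⟩ := hrep c hc
    generalize rep c = x at b3
    subst b3
    have k1 := hL j x _ (hgood j x _ b4) a
    have k2 : ∀ u ∈ Finset.univ.filter (fun u => ∀ v ∈ ({s, t} : Finset S), adj v u), _ :=
      fun u hu => hL j x _ (hgood j x _ fun y => hZ3 x _ u y hc (Finset.mem_filter.1 hu).2) a
    rw [LinearMap.comp_apply, LinearMap.comp_apply, bd_single, map_sum]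
    by_cases hx : x ∈ C j
    · rw [k1.1 hx, bd_single]
      exact Finset.sum_congr rfl fun u hu => ((k2 u hu).1 hx).symm
    · rw [k1.2 hx, map_zero]
      exact (Finset.sum_eq_zero fun u hu => (k2 u hu).2 hx).symm
  have hshape : ∀ j, ∀ c ∈ (L j β).support,
      ∃ x s t, adj s t ∧ c = (cvxPS (K j)).cell x {s, t} := by
    intro j c' hc'
    obtain ⟨c, hc, a, h⟩ := supp_lin β (L j) hc'
    obtain ⟨-, s, t, b2, b3, b4⟩ := hrep c hc
    generalize rep c = x at b3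
    subst b3
    have k1 := hL j x _ (hgood j x _ b4) a
    by_cases hx : x ∈ C j
    · rw [k1.1 hx] at h
      exact ⟨_, s, t, b2, supp_single h⟩
    · rw [k1.2 hx] at h
      exact absurd h (Finset.notMem_empty _)
  choose E hE1 hE2 using fun j => fi (K j) (hK1 j) (L j β) (hshape j) (hcyc j)
  have hsum : ∑ j, (ι' j).push (L j β) = (φ.comp ψ).push β := by
    have := ext_supp β (∑ j, (ι' j).push ∘ₗ L j) (φ.comp ψ).push fun c hc a => by
      have hx := hrZ c hc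
      obtain ⟨-, s, t, -, b3, b4⟩ := hrep c hc
      generalize rep c = x at b3 hx
      subst b3
      have hj : x ∈ C ⟨_, x, hx, rfl⟩ := ⟨hx, rfl⟩
      rw [LinearMap.sum_apply, Finset.sum_eq_single (⟨_, x, hx, rfl⟩ : J), LinearMap.comp_apply,
        (hL _ x _ (hgood _ x _ b4) a).1 hj, EHom.push_single, EHom.push_single, hπ _ x hj]
      · intro j _ hne
        rw [LinearMap.comp_apply, (hL _ x _ (hgood _ x _ b4) a).2
          fun k => hne (Subtype.ext k.2.symm), map_zero]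
      · exact fun k => absurd (Finset.mem_univ _) k
    rw [← this, LinearMap.sum_apply]
    rfl
  refine ⟨Y2, φ.comp ψ, ∑ j, (K j).card, ∑ j, (ι' j).push (E j), s2, g1.comp g2, c1.comp c2,
    (φ.new_comp ψ).trans (by omega), ?_, ?_, ?_, ?_⟩
  · refine (Finset.sum_le_sum fun j _ => hK4 j).trans ?_
    rw [← Finset.mul_sum]
    refine Nat.mul_le_mul_left _ ?_
    rw [← Finset.card_biUnion]
    · exact Finset.card_le_card (Finset.biUnion_subset.2 fun j _ => Finset.filter_subset _ _)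
    · intro j _ j' _ hne
      refine Finset.disjoint_left.2 fun c a1 a2 => hne (Subtype.ext ?_)
      exact (Finset.mem_filter.1 a1).2.2.symm.trans (Finset.mem_filter.1 a2).2.2
  · have h1 : (∑ j, (ι' j).push (E j)).support ⊆
        Finset.univ.biUnion fun j => ((ι' j).push (E j)).support := fun c hc =>
      Finset.mem_biUnion.2 (supp_sum _ _ hc)
    refine (Finset.card_le_card h1).trans (Finset.card_biUnion_le.trans ?_)
    rw [Finset.mul_sum]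
    exact Finset.sum_le_sum fun j _ =>
      ((ι' j).card_support_push _).trans (card_face _ (hE1 j))
  · rw [map_add, map_sum, ← EHom.push_bd, ← hβ, ← hsum,
      Finset.sum_congr rfl fun j _ => ((ι' j).push_bd (E j)).symm.trans (congrArg _ (hE2 j))]
    exact chain_add_self _
  · intro c hc
    rcases Finset.mem_union.1 (Finsupp.support_add hc) with h | h
    · unfold ch1 at h
      rw [map_sum] at h
      obtain ⟨p, hp, h⟩ := supp_sum _ _ h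
      rw [EHom.push_single] at h
      exact ⟨_, _, supp_single h,
        ((hY.bconn_near hD hp0 hp).map (φ.comp ψ).toEHom).mono (by omega)⟩
    · obtain ⟨j, -, h⟩ := supp_sum _ _ h
      obtain ⟨c', a1, rfl⟩ := Finset.mem_image.1 ((ι' j).support_push _ h)
      obtain ⟨x, s, rfl⟩ := hE1 j c' a1
      refine ⟨(ι' j).π x, s, rfl, ?_⟩
      have b1 := (hrep _ (Finset.mem_filter.1 (hc0 j)).1).1.map (φ.comp ψ).toEHom
      rw [hπ j _ (hz j)] at b1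
      refine (b1.trans ((near_cvx (hK1 j) _ x).map (ι' j))).mono (Nat.add_le_add_left ?_ _)
      exact Finset.single_le_sum (f := fun j => (K j).card) (fun _ _ => Nat.zero_le _)
        (Finset.mem_univ j)

end Pool.Agent.MP_df844f_gt.RA

end
end MrgPart4

-- marker of a merged file
example : 731051 + 626663 = 731051 + 626663 := rfl
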